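import Mathlib

open MeasureTheory Complex Set Filter Topology
open scoped ContDiff Laplacian

namespace Pool.Agent.H87.LE

/-! # B08a, first part: radial test functions -/

/-- a profile: `b` a bump in `(1,2)`, `B` its primitive -/
theorem b08a_bump : ∃ b B : ℝ → ℝ, ContDiff ℝ ∞ b ∧ (∀ t, 0 ≤ b t) ∧ (∀ t, t ≤ 1 → b t = 0) ∧
    (∀ t, 2 ≤ t → b t = 0) ∧ 0 < b (3 / 2) ∧ (∀ t, HasDerivAt B (b t) t) ∧
    (∀ t, t ≤ 1 → B t = 0) ∧ (∀ t, 2 ≤ t → B t = B 2) ∧ Monotone B := by
  set f : ContDiffBump (3 / 2 : ℝ) := ⟨1 / 4, 1 / 2, by norm_num, by norm_num⟩ with hf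
  have hcont : Continuous (f : ℝ → ℝ) := f.continuous
  have hd : ∀ t, HasDerivAt (fun t => ∫ x in (1:ℝ)..t, f x) (f t) t := fun t =>
    intervalIntegral.integral_hasDerivAt_right (hcont.intervalIntegrable _ _)
      (hcont.stronglyMeasurableAtFilter _ _) hcont.continuousAt
  have hz1 : ∀ t, t ≤ 1 → f t = 0 := by
    intro t ht
    refine f.zero_of_le_dist ?_
    rw [Real.dist_eq, abs_sub_comm, abs_of_nonneg (by linarith)]
    show (1/2 : ℝ) ≤ _
    linarith
  have hz2 : ∀ t, 2 ≤ t → f t = 0 := by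
    intro t ht
    refine f.zero_of_le_dist ?_
    rw [Real.dist_eq, abs_of_nonneg (by linarith)]
    show (1/2 : ℝ) ≤ _
    linarith
  refine ⟨f, fun t => ∫ x in (1:ℝ)..t, f x, f.contDiff, fun t => f.nonneg, hz1, hz2, ?_, hd, ?_, ?_, ?_⟩
  · exact f.pos_of_mem_ball (by rw [Metric.mem_ball, dist_self]; exact f.rOut_pos)
  · intro t ht
    show ∫ x in (1:ℝ)..t, f x = 0
    rw [intervalIntegral.integral_symm]
    have : ∫ x in t..(1:ℝ), f x = ∫ x in t..(1:ℝ), (0:ℝ) := by
      refine intervalIntegral.integral_congr fun x hx => ?_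
      rw [uIcc_of_le ht] at hx
      exact hz1 x hx.2
    rw [this]; simp
  · intro t ht
    show ∫ x in (1:ℝ)..t, f x = ∫ x in (1:ℝ)..2, f x
    rw [← intervalIntegral.integral_add_adjacent_intervals (b := 2)
      (hcont.intervalIntegrable _ _) (hcont.intervalIntegrable _ _)]
    have : ∫ x in (2:ℝ)..t, f x = ∫ x in (2:ℝ)..t, (0:ℝ) := by
      refine intervalIntegral.integral_congr fun x hx => ?_
      rw [uIcc_of_le ht] at hx
      exact hz2 x hx.1
    rw [this]; simp
  · refine monotone_of_deriv_nonneg (fun t => (hd t).differentiableAt) fun t => ?_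
    rw [(hd t).deriv]
    exact f.nonneg

/-- smoothness of a primitive -/
theorem b08a_smooth_prim {B b : ℝ → ℝ} (h : ∀ t, HasDerivAt B (b t) t) (hb : ContDiff ℝ ∞ b) :
    ContDiff ℝ ∞ B := by
  rw [contDiff_infty_iff_deriv]
  refine ⟨fun t => (h t).differentiableAt, ?_⟩
  have : deriv B = b := funext fun t => (h t).deriv
  rwa [this]

/-- radial profile with prescribed `w Φ'(w)` -/
theorem b08a_Phi {b B : ℝ → ℝ} (hb : ContDiff ℝ ∞ b)
    (hB : ∀ t, HasDerivAt B (b t) t) (h1 : ∀ t, t ≤ 1 → B t = 0) (h2 : ∀ t, 2 ≤ t → B t = B 2)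
    (hmono : Monotone B) {ε R : ℝ} (hε : 0 < ε) (hR : ε ≤ R) :
    ∃ Φ K K' : ℝ → ℝ, (∀ w, HasDerivAt Φ (K w) w) ∧ (∀ w, HasDerivAt K (K' w) w) ∧
      ContDiff ℝ ∞ Φ ∧ (∀ w, K w + w * K' w = -(b (w / ε) / ε - b (w / R) / R)) ∧
      (∀ w, 0 ≤ w → 0 ≤ Φ w) ∧ (∀ w, 2 * R ≤ w → Φ w = 0) := by
  have hR0 : 0 < R := hε.trans_le hR
  have hBs : ContDiff ℝ ∞ B := b08a_smooth_prim hB hb
  set η : ℝ → ℝ := fun w => B (w / ε) - B (w / R) with hη
  have hηs : ContDiff ℝ ∞ η := by
    refine ContDiff.sub ?_ ?_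
    · exact hBs.comp (contDiff_id.div_const ε)
    · exact hBs.comp (contDiff_id.div_const R)
  have hη0 : ∀ w, w ≤ ε → η w = 0 := by
    intro w hw
    have e1 : B (w / ε) = 0 := h1 _ (by rw [div_le_one hε]; exact hw)
    have e2 : B (w / R) = 0 := h1 _ (by rw [div_le_one hR0]; linarith)
    simp only [hη, e1, e2, sub_zero]
  have hη2 : ∀ w, 2 * R ≤ w → η w = 0 := by
    intro w hw
    have e1 : B (w / ε) = B 2 := h2 _ (by rw [le_div_iff₀ hε]; linarith)
    have e2 : B (w / R) = B 2 := h2 _ (by rw [le_div_iff₀ hR0]; linarith)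
    simp only [hη, e1, e2, sub_self]
  have hηn : ∀ w, 0 ≤ w → 0 ≤ η w := by
    intro w hw
    have : w / R ≤ w / ε := by gcongr
    have := hmono this
    simp only [hη]; linarith
  set K : ℝ → ℝ := fun w => -(η w / w) with hK
  have hKs : ContDiff ℝ ∞ K := by
    rw [contDiff_iff_contDiffAt]
    intro w
    by_cases hw : w < ε
    · have : K =ᶠ[𝓝 w] fun _ => 0 := by
        filter_upwards [Iio_mem_nhds hw] with x hx
        simp only [hK, hη0 x (le_of_lt hx)]
        simp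
      exact contDiffAt_const.congr_of_eventuallyEq this
    · have hw0 : w ≠ 0 := by
        push Not at hw
        exact (hε.trans_le hw).ne'
      exact (hηs.contDiffAt.div contDiffAt_id hw0).neg
  have hKd : ∀ w, HasDerivAt K (deriv K w) w := fun w =>
    (hKs.differentiable (by simp) w).hasDerivAt
  have hKc : Continuous K := hKs.continuous
  set Φ : ℝ → ℝ := fun w => ∫ x in (2 * R)..w, K x with hΦ
  have hΦd : ∀ w, HasDerivAt Φ (K w) w := fun w =>
    intervalIntegral.integral_hasDerivAt_right (hKc.intervalIntegrable _ _)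
      (hKc.stronglyMeasurableAtFilter _ _) hKc.continuousAt
  have hwK : ∀ w, w * K w = - η w := by
    intro w
    by_cases hw : w = 0
    · rw [hw, hη0 0 hε.le]; simp
    · simp only [hK]; field_simp
  refine ⟨Φ, K, deriv K, hΦd, hKd, b08a_smooth_prim hΦd hKs, ?_, ?_, ?_⟩
  · intro w
    have d1 : HasDerivAt (fun w => w * K w) (1 * K w + w * deriv K w) w :=
      (hasDerivAt_id w).mul (hKd w)
    have d2 : HasDerivAt (fun w => - η w) (-(b (w / ε) * (1 / ε) - b (w / R) * (1 / R))) w := by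
      have e1 : HasDerivAt (fun w => B (w / ε)) (b (w / ε) * (1 / ε)) w :=
        (hB (w / ε)).comp w ((hasDerivAt_id w).div_const ε)
      have e2 : HasDerivAt (fun w => B (w / R)) (b (w / R) * (1 / R)) w :=
        (hB (w / R)).comp w ((hasDerivAt_id w).div_const R)
      exact (e1.sub e2).neg
    have e : (fun w => w * K w) = fun w => - η w := funext hwK
    rw [e] at d1
    have := d1.unique d2
    rw [one_mul] at this
    rw [this]; ring
  · intro w hw
    by_cases hw2 : 2 * R ≤ w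
    · have : Φ w = 0 := by
        simp only [hΦ]
        have : ∫ x in (2 * R)..w, K x = ∫ x in (2 * R)..w, (0:ℝ) := by
          refine intervalIntegral.integral_congr fun x hx => ?_
          rw [uIcc_of_le hw2] at hx
          simp only [hK, hη2 x hx.1]; simp
        rw [this]; simp
      rw [this]
    · push Not at hw2
      simp only [hΦ]
      rw [intervalIntegral.integral_symm, ← intervalIntegral.integral_neg]
      refine intervalIntegral.integral_nonneg hw2.le fun x hx => ?_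
      simp only [hK, neg_neg]
      have hx0 : 0 ≤ x := hw.trans hx.1
      exact div_nonneg (hηn x hx0) hx0
  · intro w hw2
    simp only [hΦ]
    have : ∫ x in (2 * R)..w, K x = ∫ x in (2 * R)..w, (0:ℝ) := by
      refine intervalIntegral.integral_congr fun x hx => ?_
      rw [uIcc_of_le hw2] at hx
      simp only [hK, hη2 x hx.1]; simp
    rw [this]; simp

/-- Laplacian of a radial function -/
theorem b08a_lap_radial {Φ K K' : ℝ → ℝ} (hΦ : ∀ w, HasDerivAt Φ (K w) w)
    (hK : ∀ w, HasDerivAt K (K' w) w) (z : ℂ) :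
    Δ (fun z : ℂ => Φ (z.re ^ 2 + z.im ^ 2)) z =
      4 * (K (z.re ^ 2 + z.im ^ 2) + (z.re ^ 2 + z.im ^ 2) * K' (z.re ^ 2 + z.im ^ 2)) := by
  rw [InnerProductSpace.laplacian_eq_iteratedFDeriv_complexPlane]
  simp only [iteratedFDeriv_two_apply]
  have hN : ∀ z : ℂ, HasFDerivAt (fun z : ℂ => z.re ^ 2 + z.im ^ 2)
      ((2 * z.re) • reCLM + (2 * z.im) • imCLM) z := by
    intro z
    have h1 : HasFDerivAt (fun z : ℂ => z.re) reCLM z := reCLM.hasFDerivAt
    have h2 : HasFDerivAt (fun z : ℂ => z.im) imCLM z := imCLM.hasFDerivAt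
    have h3 := (h1.pow 2).add (h2.pow 2)
    refine h3.congr_fderiv ?_
    ext w
    simp
  have e : fderiv ℝ (fun z : ℂ => Φ (z.re ^ 2 + z.im ^ 2)) =
      fun z => (K (z.re ^ 2 + z.im ^ 2) * (2 * z.re)) • reCLM +
        (K (z.re ^ 2 + z.im ^ 2) * (2 * z.im)) • imCLM := by
    funext z
    have := ((hΦ (z.re ^ 2 + z.im ^ 2)).comp_hasFDerivAt z (hN z)).fderiv
    have e2 : (Φ ∘ fun z : ℂ => z.re ^ 2 + z.im ^ 2) = fun z : ℂ => Φ (z.re ^ 2 + z.im ^ 2) := rfl
    rw [e2] at this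
    rw [this, smul_add, smul_smul, smul_smul]
  rw [e]
  have h1 : HasFDerivAt (fun z : ℂ => z.re) reCLM z := reCLM.hasFDerivAt
  have h2 : HasFDerivAt (fun z : ℂ => z.im) imCLM z := imCLM.hasFDerivAt
  have hKN := (hK (z.re ^ 2 + z.im ^ 2)).comp_hasFDerivAt z (hN z)
  have a1 := (hKN.mul (h1.const_mul 2)).smul_const reCLM
  have a2 := (hKN.mul (h2.const_mul 2)).smul_const imCLM
  have a3 := a1.add a2
  have a4 := a3.fderiv
  have e3 : ((fun z : ℂ => (K ∘ fun z : ℂ => z.re ^ 2 + z.im ^ 2) z * (2 * z.re)) ) = 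
     fun z : ℂ => K (z.re ^ 2 + z.im ^ 2) * (2 * z.re) := rfl
  have e4 : fderiv ℝ (fun z : ℂ => (K (z.re ^ 2 + z.im ^ 2) * (2 * z.re)) • reCLM +
        (K (z.re ^ 2 + z.im ^ 2) * (2 * z.im)) • imCLM) z = _ := a4
  rw [e4]
  simp
  ring

end Pool.Agent.H87.LE
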