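import Pool.Agent.H87.LE.A01_Green
import Pool.Agent.H30.LE.Lim

open MeasureTheory Complex Set Filter Topology
open scoped ContDiff Laplacian

namespace Pool.Agent.H87.LE

/-! # B08a, second part: localisation of a weak equation -/

theorem b08a_lap_cont {ψ : ℂ → ℝ} (hψ : ContDiff ℝ ∞ ψ) : Continuous (Δ ψ) := by
  have : Δ ψ = fun z => fderiv ℝ (fderiv ℝ ψ) z 1 1 + fderiv ℝ (fderiv ℝ ψ) z I I := by
    rw [InnerProductSpace.laplacian_eq_iteratedFDeriv_complexPlane]
    funext z
    simp [iteratedFDeriv_two_apply]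
  rw [this]
  have h2 : ContDiff ℝ ∞ (fderiv ℝ ψ) := hψ.fderiv_right (by simp)
  have h3 : Continuous (fderiv ℝ (fderiv ℝ ψ)) := h2.continuous_fderiv (by simp)
  exact ((h3.clm_apply continuous_const).clm_apply continuous_const).add
    ((h3.clm_apply continuous_const).clm_apply continuous_const)

theorem b08a_lap_off {ψ : ℂ → ℝ} {z : ℂ} (h : z ∉ tsupport ψ) : Δ ψ z = 0 := by
  have : ψ =ᶠ[𝓝 z] fun _ => 0 := notMem_tsupport_iff_eventuallyEq.mp h
  rw [(InnerProductSpace.laplacian_congr_nhds this).eq_of_nhds]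
  simp

theorem b08a_lap_memLp {ψ : ℂ → ℝ} (hψ : ContDiff ℝ ∞ ψ) (hc : HasCompactSupport ψ) :
    MemLp (Δ ψ) 2 volume :=
  (b08a_lap_cont hψ).memLp_of_hasCompactSupport
    (HasCompactSupport.intro hc fun _ hz => b08a_lap_off hz)

theorem b08a_real_inner (x y : ℝ) : inner ℝ x y = x * y := by
  rw [real_inner_eq_re_inner ℝ]; simp [mul_comm]

/-- Green's formula against a limit of test functions -/
theorem b08a_green {Ω : Set ℂ} {φ : ℕ → ℂ → ℝ} (hφ : ∀ n, Tst Ω (φ n)) {v : ℂ → ℝ}
    {G : ℂ → ℂ} (h : Lim φ v G) {ψ : ℂ → ℝ} (hψ : ContDiff ℝ ∞ ψ) (hψc : HasCompactSupport ψ) :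
    ∫ z, inner ℝ (gradient ψ z) (G z) = - ∫ z, Δ ψ z * v z := by
  obtain ⟨hv, hG⟩ := a17_lim_memLp hφ h
  have m1 := a16_memLp_grad hψ hψc
  have m2 := b08a_lap_memLp hψ hψc
  have t1 := H30.LE.tendsto_integral_inner_left m1 (fun n => a17_tst_memLp_grad (hφ n) 2) hG h.2.2.2
  have t2 := H30.LE.tendsto_integral_inner_left m2 (fun n => a17_tst_memLp (hφ n) 2) hv h.2.2.1
  have key : ∀ n, ∫ z, inner ℝ (gradient ψ z) (gradient (φ n) z) =
      - ∫ z, inner ℝ (Δ ψ z) (φ n z) := by
    intro n
    simp only [b08a_real_inner]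
    exact (green isOpen_univ ((hψ.of_le (by norm_cast)).contDiffOn)
      (a17_tst_mono (subset_univ _) (hφ n))).2.2
  have t3 := t2.neg
  have := tendsto_nhds_unique t1 (t3.congr fun n => (key n).symm)
  simpa only [b08a_real_inner] using this

theorem b08a_tst_cs {Ω : Set ℂ} {χ φ : ℂ → ℝ} (hχ : ContDiff ℝ ∞ χ) (hχc : HasCompactSupport χ)
    (hs : tsupport χ ⊆ Ω) (hφ : ContDiff ℝ ∞ φ) : Tst Ω (fun z => χ z * φ z) :=
  ⟨hχ.mul hφ, hχc.mul_right, (tsupport_mul_subset_left (f := χ) (g := φ)).trans hs⟩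

/-- localisation -/
theorem b08a_local {Ω : Set ℂ} {φn : ℕ → ℂ → ℝ} (hφn : ∀ n, Tst DD (φn n)) (hDo : IsOpen DD)
    {v f : ℂ → ℝ} {G : ℂ → ℂ} (hL : Lim φn v G) (hf : MemLp f 2 volume)
    (he : ∀ ψ, Tst Ω ψ → ∫ z, inner ℝ (G z) (gradient ψ z) = ∫ z, f z * ψ z)
    {χ φ : ℂ → ℝ} (hχ : ContDiff ℝ ∞ χ) (hχc : HasCompactSupport χ)
    (hs : tsupport χ ⊆ Ω) (hφ : ContDiff ℝ ∞ φ) (hφc : HasCompactSupport φ) :
    ∫ z, χ z * v z * Δ φ z =
      - ∫ z, (χ z * f z - 2 * inner ℝ (gradient χ z) (G z) - Δ χ z * v z) * φ z := by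
  obtain ⟨hv, hG⟩ := a17_lim_memLp hφn hL
  obtain ⟨hT1, hL1⟩ := mul_lim hDo subset_rfl hφn hL hχ (Ω' := DD) inter_subset_right
  obtain ⟨hT2, hL2⟩ := mul_lim hDo subset_rfl hφn hL hφ (Ω' := DD) inter_subset_right
  have A1 := b08a_green hT1 hL1 hφ hφc
  have A2 := b08a_green hT2 hL2 hχ hχc
  have A3 := he _ (b08a_tst_cs hχ hχc hs hφ)
  have hgφ := a16_grad_cont hφ
  have hgχ := a16_grad_cont hχ
  have cgφ := a16_grad_hcs hφc
  have cgχ := a16_grad_hcs hχc
  -- integrabilities
  have ip : Integrable (fun z => v z * inner ℝ (gradient χ z) (gradient φ z)) volume := by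
    have m : MemLp (fun z => (inner ℝ (gradient χ z) (gradient φ z) : ℝ)) 2 volume := by
      refine (hgχ.inner hgφ).memLp_of_hasCompactSupport ?_
      refine HasCompactSupport.intro hχc fun z hz => ?_
      rw [a16_grad_zero hz, inner_zero_left]
    have := H30.LE.integrable_inner hv m
    simpa only [b08a_real_inner] using this
  have iq : Integrable (fun z => χ z * inner ℝ (gradient φ z) (G z)) volume := by
    have m : MemLp (fun z => χ z • gradient φ z) 2 volume :=
      (hχ.continuous.smul hgφ).memLp_of_hasCompactSupport hχc.smul_right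
    have := H30.LE.integrable_inner m hG
    simpa only [real_inner_smul_left] using this
  have ir : Integrable (fun z => φ z * inner ℝ (gradient χ z) (G z)) volume := by
    have m : MemLp (fun z => φ z • gradient χ z) 2 volume :=
      (hφ.continuous.smul hgχ).memLp_of_hasCompactSupport hφc.smul_right
    have := H30.LE.integrable_inner m hG
    simpa only [real_inner_smul_left] using this
  have iy : Integrable (fun z => Δ χ z * (φ z * v z)) volume := by
    have m : MemLp (fun z => Δ χ z * φ z) 2 volume :=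
      ((b08a_lap_cont hχ).mul hφ.continuous).memLp_of_hasCompactSupport hφc.mul_left
    have := H30.LE.integrable_inner m hv
    simp only [b08a_real_inner] at this
    exact this.congr (Eventually.of_forall fun z => by ring)
  have iz : Integrable (fun z => f z * (χ z * φ z)) volume := by
    have m : MemLp (fun z => χ z * φ z) 2 volume :=
      (hχ.continuous.mul hφ.continuous).memLp_of_hasCompactSupport hφc.mul_left
    have := H30.LE.integrable_inner hf m
    simpa only [b08a_real_inner] using this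
  -- split
  have B1 : ∫ z, inner ℝ (gradient φ z) (v z • gradient χ z + χ z • G z) =
      (∫ z, v z * inner ℝ (gradient χ z) (gradient φ z)) +
        ∫ z, χ z * inner ℝ (gradient φ z) (G z) := by
    rw [← integral_add ip iq]
    congr 1; funext z
    rw [inner_add_right, real_inner_smul_right, real_inner_smul_right,
      real_inner_comm (gradient χ z)]
  have B2 : ∫ z, inner ℝ (gradient χ z) (v z • gradient φ z + φ z • G z) =
      (∫ z, v z * inner ℝ (gradient χ z) (gradient φ z)) +
        ∫ z, φ z * inner ℝ (gradient χ z) (G z) := by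
    rw [← integral_add ip ir]
    congr 1; funext z
    rw [inner_add_right, real_inner_smul_right, real_inner_smul_right]
  have B3 : ∫ z, inner ℝ (G z) (gradient (fun z => χ z * φ z) z) =
      (∫ z, χ z * inner ℝ (gradient φ z) (G z)) +
        ∫ z, φ z * inner ℝ (gradient χ z) (G z) := by
    rw [← integral_add iq ir]
    congr 1; funext z
    rw [a16_grad_mul (hχ.differentiable (by simp) z) (hφ.differentiable (by simp) z),
      inner_add_right, real_inner_smul_right, real_inner_smul_right,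
      real_inner_comm (gradient χ z), real_inner_comm (gradient φ z)]
    ring
  have B4 : ∫ z, (χ z * f z - 2 * inner ℝ (gradient χ z) (G z) - Δ χ z * v z) * φ z =
      (∫ z, f z * (χ z * φ z)) - 2 * (∫ z, φ z * inner ℝ (gradient χ z) (G z)) -
        ∫ z, Δ χ z * (φ z * v z) := by
    have i2 : Integrable (fun z => f z * (χ z * φ z) -
        2 * (φ z * inner ℝ (gradient χ z) (G z))) volume := iz.sub (ir.const_mul 2)
    rw [← integral_const_mul, ← integral_sub iz (ir.const_mul 2), ← integral_sub i2 iy]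
    congr 1; funext z
    ring
  have B5 : ∫ z, χ z * v z * Δ φ z = ∫ z, Δ φ z * (χ z * v z) := by
    congr 1; funext z; ring
  rw [B5, B4]
  rw [B1] at A1
  rw [B2] at A2
  rw [B3] at A3
  linarith

end Pool.Agent.H87.LE
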