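import Pool.Agent.H87.LE.Base
import Pool.Agent.H87.LE.A11_Defs

/-! # A11b (helper14): calculus of the function gg -/

open MeasureTheory Complex Set Filter Topology
open scoped ContDiff Laplacian

namespace Pool.Agent.H87.LE

namespace A11b

/-- derivative of `gg` -/
noncomputable def g1 (y : ℝ) : ℝ := (1 + y) * Real.log (1 + y) - (1 - y) * Real.log (1 - y) - 2 * y

lemma gg_eq (y : ℝ) : gg y = ((1 + y) ^ 2 * Real.log (1 + y) + (1 - y) ^ 2 * Real.log (1 - y)) / 2 -
    3 / 2 * y ^ 2 := by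
  unfold gg
  rw [Real.log_abs, Real.log_abs]

lemma gg_cont : Continuous gg := by
  have h : Continuous fun x : ℝ => x * Real.log x := Real.continuous_mul_log
  have e : gg = fun y => ((1 + y) * ((1 + y) * Real.log (1 + y)) +
      (1 - y) * ((1 - y) * Real.log (1 - y))) / 2 - 3 / 2 * y ^ 2 := by
    funext y; rw [gg_eq]; ring
  rw [e]
  have h1 : Continuous fun y : ℝ => (1 + y) * Real.log (1 + y) := h.comp (by fun_prop)
  have h2 : Continuous fun y : ℝ => (1 - y) * Real.log (1 - y) := h.comp (by fun_prop)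
  fun_prop

lemma g1_cont : Continuous g1 := by
  have h : Continuous fun x : ℝ => x * Real.log x := Real.continuous_mul_log
  have h1 : Continuous fun y : ℝ => (1 + y) * Real.log (1 + y) := h.comp (by fun_prop)
  have h2 : Continuous fun y : ℝ => (1 - y) * Real.log (1 - y) := h.comp (by fun_prop)
  unfold g1
  fun_prop

lemma gg_zero : gg 0 = 0 := by rw [gg_eq]; simp

lemma g1_zero : g1 0 = 0 := by unfold g1; simp

lemma gg_deriv {y : ℝ} (hy : 0 ≤ y) (h1 : y ≠ 1) : HasDerivAt gg (g1 y) y := by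
  have e : gg = fun y => ((1 + y) ^ 2 * Real.log (1 + y) + (1 - y) ^ 2 * Real.log (1 - y)) / 2 -
    3 / 2 * y ^ 2 := funext gg_eq
  rw [e]
  have a1 : (1 + y) ≠ 0 := by positivity
  have a2 : (1 - y) ≠ 0 := by intro h; apply h1; linarith
  have d1 : HasDerivAt (fun y : ℝ => 1 + y) 1 y := (hasDerivAt_id y).const_add 1
  have d2 : HasDerivAt (fun y : ℝ => 1 - y) (-1) y := (hasDerivAt_id y).const_sub 1
  have l1 := d1.log a1
  have l2 := d2.log a2
  have := ((((d1.pow 2).mul l1).add ((d2.pow 2).mul l2)).div_const 2).sub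
    (((hasDerivAt_id y).pow 2).const_mul (3 / 2 : ℝ))
  refine this.congr_deriv ?_
  unfold g1
  simp only [Pi.pow_apply, id]
  field_simp
  ring

lemma g1_deriv {y : ℝ} (hy : 0 ≤ y) (h1 : y ≠ 1) :
    HasDerivAt g1 (Real.log |1 - y ^ 2|) y := by
  have a1 : (1 + y) ≠ 0 := by positivity
  have a2 : (1 - y) ≠ 0 := by intro h; apply h1; linarith
  have d1 : HasDerivAt (fun y : ℝ => 1 + y) 1 y := (hasDerivAt_id y).const_add 1
  have d2 : HasDerivAt (fun y : ℝ => 1 - y) (-1) y := (hasDerivAt_id y).const_sub 1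
  have l1 := d1.log a1
  have l2 := d2.log a2
  have := ((d1.mul l1).sub (d2.mul l2)).sub ((hasDerivAt_id y).const_mul (2 : ℝ))
  refine this.congr_deriv ?_
  have e : 1 - y ^ 2 = (1 + y) * (1 - y) := by ring
  rw [e, Real.log_abs, Real.log_mul a1 a2]
  field_simp
  ring

/-- the square root of two as a real number `r2` with `r2^2 = 2` -/
lemma g1_neg {y : ℝ} (h0 : 0 < y) (h2 : y ≤ Real.sqrt 2) : g1 y < 0 := by
  have hs : Real.sqrt 2 ^ 2 = 2 := Real.sq_sqrt (by norm_num)
  have hs1 : 1 < Real.sqrt 2 := by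
    rw [show (1 : ℝ) = Real.sqrt 1 by simp]
    exact Real.sqrt_lt_sqrt (by norm_num) (by norm_num)
  have m1 : StrictAntiOn g1 (Icc 0 1) := by
    apply strictAntiOn_of_deriv_neg (convex_Icc 0 1) g1_cont.continuousOn
    intro x hx
    rw [interior_Icc] at hx
    rw [(g1_deriv hx.1.le hx.2.ne).deriv]
    have : 0 < 1 - x ^ 2 := by nlinarith [hx.1, hx.2]
    rw [abs_of_pos this]
    exact Real.log_neg this (by nlinarith [hx.1])
  have m2 : StrictAntiOn g1 (Icc 1 (Real.sqrt 2)) := by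
    apply strictAntiOn_of_deriv_neg (convex_Icc _ _) g1_cont.continuousOn
    intro x hx
    rw [interior_Icc] at hx
    rw [(g1_deriv (by linarith [hx.1]) hx.1.ne').deriv]
    have h3 : 0 < x ^ 2 - 1 := by nlinarith [hx.1, hx.2]
    have h4 : x ^ 2 < 2 := by nlinarith [hx.1, hx.2]
    rw [abs_sub_comm, abs_of_pos h3]
    exact Real.log_neg h3 (by linarith)
  have hm1 : g1 1 < 0 := by
    have := m1 (left_mem_Icc.2 zero_le_one) (right_mem_Icc.2 zero_le_one) zero_lt_one
    rwa [g1_zero] at this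
  rcases le_or_gt y 1 with h | h
  · have := m1 (left_mem_Icc.2 zero_le_one) ⟨h0.le, h⟩ h0
    rwa [g1_zero] at this
  · have := m2 (left_mem_Icc.2 hs1.le) ⟨h.le, h2⟩ h
    linarith

lemma gg_neg {y : ℝ} (h0 : 0 < y) (h2 : y ≤ Real.sqrt 2) : gg y < 0 := by
  have hs1 : 1 < Real.sqrt 2 := by
    rw [show (1 : ℝ) = Real.sqrt 1 by simp]
    exact Real.sqrt_lt_sqrt (by norm_num) (by norm_num)
  have m1 : StrictAntiOn gg (Icc 0 1) := by
    apply strictAntiOn_of_deriv_neg (convex_Icc 0 1) gg_cont.continuousOn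
    intro x hx
    rw [interior_Icc] at hx
    rw [(gg_deriv hx.1.le hx.2.ne).deriv]
    exact g1_neg hx.1 (by linarith [hx.2])
  have m2 : StrictAntiOn gg (Icc 1 (Real.sqrt 2)) := by
    apply strictAntiOn_of_deriv_neg (convex_Icc _ _) gg_cont.continuousOn
    intro x hx
    rw [interior_Icc] at hx
    rw [(gg_deriv (by linarith [hx.1]) hx.1.ne').deriv]
    exact g1_neg (by linarith [hx.1]) hx.2.le
  have hm1 : gg 1 < 0 := by
    have := m1 (left_mem_Icc.2 zero_le_one) (right_mem_Icc.2 zero_le_one) zero_lt_one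
    rwa [gg_zero] at this
  rcases le_or_gt y 1 with h | h
  · have := m1 (left_mem_Icc.2 zero_le_one) ⟨h0.le, h⟩ h0
    rwa [gg_zero] at this
  · have := m2 (left_mem_Icc.2 hs1.le) ⟨h.le, h2⟩ h
    linarith

lemma gg_convex : ConvexOn ℝ (Ici (Real.sqrt 2)) gg := by
  have hs1 : 1 < Real.sqrt 2 := by
    rw [show (1 : ℝ) = Real.sqrt 1 by simp]
    exact Real.sqrt_lt_sqrt (by norm_num) (by norm_num)
  have hs : Real.sqrt 2 ^ 2 = 2 := Real.sq_sqrt (by norm_num)
  refine convexOn_of_hasDerivWithinAt2_nonneg (convex_Ici _) (f' := g1)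
    (f'' := fun y => Real.log |1 - y ^ 2|) gg_cont.continuousOn ?_ ?_ ?_
  · intro x hx
    rw [interior_Ici] at hx
    have hx' : Real.sqrt 2 < x := hx
    exact (gg_deriv (by linarith) (by linarith : (1 : ℝ) < x).ne').hasDerivWithinAt
  · intro x hx
    rw [interior_Ici] at hx
    have hx' : Real.sqrt 2 < x := hx
    exact (g1_deriv (by linarith) (by linarith : (1 : ℝ) < x).ne').hasDerivWithinAt
  · intro x hx
    rw [interior_Ici] at hx
    have hx' : Real.sqrt 2 < x := hx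
    have h4 : 2 < x ^ 2 := by nlinarith
    apply Real.log_nonneg
    rw [abs_sub_comm, abs_of_pos (by linarith)]
    linarith

/-- growth -/
lemma gg_growth {y : ℝ} (hy : 2 ≤ y) : y ^ 2 * (Real.log y - 3) / 2 ≤ gg y := by
  rw [gg_eq]
  have h1 : Real.log y ≤ Real.log (1 + y) := Real.log_le_log (by linarith) (by linarith)
  have h0 : 0 ≤ Real.log y := Real.log_nonneg (by linarith)
  have h2 : 0 ≤ Real.log (1 - y) := by
    rw [← Real.log_abs, abs_sub_comm, abs_of_nonneg (by linarith : (0:ℝ) ≤ y - 1)]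
    exact Real.log_nonneg (by linarith)
  have h3 : y ^ 2 * Real.log y ≤ (1 + y) ^ 2 * Real.log (1 + y) := by
    apply mul_le_mul (by nlinarith) h1 h0 (by positivity)
  have h4 : 0 ≤ (1 - y) ^ 2 * Real.log (1 - y) := by positivity
  nlinarith

/-- the sign structure of `gg` -/
lemma exists_y0 : ∃ y₀ : ℝ, 1 < y₀ ∧ (∀ y, 0 < y → y < y₀ → gg y < 0) ∧ ∀ y, y₀ < y → 0 < gg y := by
  have hs1 : 1 < Real.sqrt 2 := by
    rw [show (1 : ℝ) = Real.sqrt 1 by simp]
    exact Real.sqrt_lt_sqrt (by norm_num) (by norm_num)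
  have hs2 : Real.sqrt 2 < 2 := by
    rw [Real.sqrt_lt' (by norm_num)]; norm_num
  obtain ⟨Y, hY⟩ : ∃ Y : ℝ, Y = Real.exp 4 := ⟨_, rfl⟩
  have hY2 : 2 ≤ Y := by
    rw [hY]; have := Real.add_one_le_exp (4 : ℝ); linarith
  have hpos : 0 < gg Y := by
    have := gg_growth hY2
    rw [hY, Real.log_exp] at this
    rw [hY]
    have h3 : 0 < Real.exp 4 ^ 2 * (4 - 3) / 2 := by positivity
    linarith
  have hneg : gg (Real.sqrt 2) < 0 := gg_neg (by linarith) le_rfl
  obtain ⟨y₀, ⟨hy1, hy2⟩, hy0⟩ := intermediate_value_Icc (by linarith : Real.sqrt 2 ≤ Y)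
    gg_cont.continuousOn ⟨hneg.le, hpos.le⟩
  have hy3 : Real.sqrt 2 < y₀ := by
    rcases hy1.lt_or_eq with h | h
    · exact h
    · rw [h, hy0] at hneg; exact absurd hneg (lt_irrefl 0)
  refine ⟨y₀, by linarith, ?_, ?_⟩
  · intro y h0 hy
    rcases le_or_gt y (Real.sqrt 2) with h | h
    · exact gg_neg h0 h
    · have hd : 0 < y₀ - Real.sqrt 2 := by linarith
      have h5 := gg_convex.2 (Set.mem_Ici.2 (le_refl (Real.sqrt 2)))
        (show y₀ ∈ Ici (Real.sqrt 2) from hy3.le)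
        (show 0 ≤ (y₀ - y) / (y₀ - Real.sqrt 2) from div_nonneg (by linarith) hd.le)
        (show 0 ≤ (y - Real.sqrt 2) / (y₀ - Real.sqrt 2) from div_nonneg (by linarith) hd.le)
        (by field_simp; ring)
      have h6 : ((y₀ - y) / (y₀ - Real.sqrt 2)) • Real.sqrt 2 +
          ((y - Real.sqrt 2) / (y₀ - Real.sqrt 2)) • y₀ = y := by
        simp only [smul_eq_mul]; field_simp; ring
      rw [h6, hy0, smul_zero, add_zero, smul_eq_mul] at h5
      have h7 : 0 < (y₀ - y) / (y₀ - Real.sqrt 2) := div_pos (by linarith) hd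
      nlinarith
  · intro y hy
    have hd : 0 < y - Real.sqrt 2 := by linarith
    have h5 := gg_convex.2 (Set.mem_Ici.2 (le_refl (Real.sqrt 2)))
      (show y ∈ Ici (Real.sqrt 2) from by show Real.sqrt 2 ≤ y; linarith)
      (show 0 ≤ (y - y₀) / (y - Real.sqrt 2) from div_nonneg (by linarith) hd.le)
      (show 0 ≤ (y₀ - Real.sqrt 2) / (y - Real.sqrt 2) from div_nonneg (by linarith) hd.le)
      (by field_simp; ring)
    have h6 : ((y - y₀) / (y - Real.sqrt 2)) • Real.sqrt 2 +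
        ((y₀ - Real.sqrt 2) / (y - Real.sqrt 2)) • y = y₀ := by
      simp only [smul_eq_mul]; field_simp; ring
    rw [h6, hy0, smul_eq_mul, smul_eq_mul] at h5
    have h7 : 0 < (y - y₀) / (y - Real.sqrt 2) := div_pos (by linarith) hd
    have h8 : 0 < (y₀ - Real.sqrt 2) / (y - Real.sqrt 2) := div_pos (by linarith) hd
    by_contra hc
    push Not at hc
    nlinarith

/-- lower bound -/
lemma gg_lower {y : ℝ} (hy : 0 ≤ y) : -(3 / 2) * y ^ 2 ≤ gg y := by
  rw [gg_eq]
  have h1 : y * (1 + y) ≤ (1 + y) ^ 2 * Real.log (1 + y) := by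
    have := Real.one_sub_inv_le_log_of_pos (show 0 < 1 + y by linarith)
    have h2 : (1 + y) ^ 2 * (1 - (1 + y)⁻¹) ≤ (1 + y) ^ 2 * Real.log (1 + y) :=
      mul_le_mul_of_nonneg_left this (by positivity)
    have h3 : (1 + y) ^ 2 * (1 - (1 + y)⁻¹) = y * (1 + y) := by
      have : 1 + y ≠ 0 := by positivity
      field_simp; ring
    linarith
  have h4 : ∀ t : ℝ, 0 ≤ t → t ^ 2 - t ≤ t ^ 2 * Real.log t := by
    intro t ht
    rcases ht.eq_or_lt with h | h
    · rw [← h]; simp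
    · have := Real.one_sub_inv_le_log_of_pos h
      have h2 : t ^ 2 * (1 - t⁻¹) ≤ t ^ 2 * Real.log t :=
        mul_le_mul_of_nonneg_left this (by positivity)
      have h3 : t ^ 2 * (1 - t⁻¹) = t ^ 2 - t := by field_simp
      linarith
  rcases le_or_gt y 1 with h | h
  · have h5 := h4 (1 - y) (by linarith)
    nlinarith
  · have h5 := h4 (y - 1) (by linarith)
    have h6 : (1 - y) ^ 2 * Real.log (1 - y) = (y - 1) ^ 2 * Real.log (y - 1) := by
      rw [← Real.log_abs, abs_sub_comm, abs_of_pos (by linarith : (0:ℝ) < y - 1)]; ring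
    rw [h6]
    nlinarith

/-- small arguments -/
lemma gg_small {y : ℝ} (h0 : 0 ≤ y) (hy : y ≤ 1 / 2) : |gg y| ≤ y ^ 4 := by
  have hlog : ∀ x : ℝ, 0 < x → x < 1 / 2 → -(12 * x ^ 2) ≤ Real.log |1 - x ^ 2| := by
    intro x hx hx2
    have h3 : 0 < 1 - x ^ 2 := by nlinarith
    rw [abs_of_pos h3]
    have := Real.one_sub_inv_le_log_of_pos h3
    have h4 : (1 - x ^ 2)⁻¹ ≤ 1 + 12 * x ^ 2 := by
      rw [inv_le_iff_one_le_mul₀ h3]
      have hx4 : x ^ 2 ≤ 1 / 4 := by nlinarith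
      have : 0 ≤ x ^ 2 * (11 - 12 * x ^ 2) := mul_nonneg (by positivity) (by linarith)
      nlinarith
    linarith
  have k1 : ∀ x : ℝ, 0 ≤ x → x ≤ 1 / 2 → 0 ≤ g1 x + 4 * x ^ 3 := by
    intro x hx hx2
    have hm : MonotoneOn (fun x => g1 x + 4 * x ^ 3) (Icc 0 (1 / 2)) := by
      apply monotoneOn_of_deriv_nonneg (convex_Icc _ _) (by have := g1_cont; fun_prop)
      · intro z hz
        rw [interior_Icc] at hz
        exact ((g1_deriv hz.1.le (by linarith [hz.2] : z < 1).ne).add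
          (((hasDerivAt_id z).pow 3).const_mul 4)).differentiableAt.differentiableWithinAt
      · intro z hz
        rw [interior_Icc] at hz
        have hd := (g1_deriv hz.1.le (by linarith [hz.2] : z < 1).ne).add
          (((hasDerivAt_id z).pow 3).const_mul 4)
        have := hlog z hz.1 hz.2
        erw [hd.deriv]
        simp only [id, Nat.cast_ofNat, Nat.add_one_sub_one, mul_one]
        linarith
    have := hm (left_mem_Icc.2 (by norm_num)) ⟨hx, hx2⟩ hx
    simp only [g1_zero] at this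
    linarith
  have k2 : ∀ x : ℝ, 0 ≤ x → x ≤ 1 / 2 → 0 ≤ gg x + x ^ 4 := by
    intro x hx hx2
    have hm : MonotoneOn (fun x => gg x + x ^ 4) (Icc 0 (1 / 2)) := by
      apply monotoneOn_of_deriv_nonneg (convex_Icc _ _) (by have := gg_cont; fun_prop)
      · intro z hz
        rw [interior_Icc] at hz
        exact ((gg_deriv hz.1.le (by linarith [hz.2] : z < 1).ne).add
          ((hasDerivAt_id z).pow 4)).differentiableAt.differentiableWithinAt
      · intro z hz
        rw [interior_Icc] at hz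
        have hd := (gg_deriv hz.1.le (by linarith [hz.2] : z < 1).ne).add
          ((hasDerivAt_id z).pow 4)
        have := k1 z hz.1.le hz.2.le
        erw [hd.deriv]
        simp only [id, Nat.cast_ofNat, Nat.add_one_sub_one, mul_one]
        linarith
    have := hm (left_mem_Icc.2 (by norm_num)) ⟨hx, hx2⟩ hx
    simp only [gg_zero] at this
    linarith
  have k3 : gg y ≤ 0 := by
    rcases h0.eq_or_lt with h | h
    · rw [← h, gg_zero]
    · refine (gg_neg h ?_).le
      have : (1 : ℝ) ≤ Real.sqrt 2 := by rw [Real.one_le_sqrt]; norm_num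
      linarith
  rw [abs_le]
  have := k2 y h0 hy
  have h4 : 0 ≤ y ^ 4 := by positivity
  constructor <;> linarith

/-- global bound -/
lemma gg_bound {y : ℝ} (h0 : 0 ≤ y) : |gg y| ≤ 100 * y ^ (11 / 4 : ℝ) := by
  rcases le_or_gt y (1 / 2) with h | h
  · refine (gg_small h0 h).trans ?_
    have h1 : y ^ (4 : ℝ) ≤ y ^ (11 / 4 : ℝ) := by
      rcases h0.eq_or_lt with h' | h'
      · rw [← h']; rw [Real.zero_rpow (by norm_num), Real.zero_rpow (by norm_num)]
      · exact Real.rpow_le_rpow_of_exponent_ge h' (by linarith) (by norm_num)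
    have h2 : y ^ (4 : ℝ) = y ^ 4 := by exact_mod_cast Real.rpow_natCast y 4
    have h3 : 0 ≤ y ^ (11 / 4 : ℝ) := by positivity
    rw [h2] at h1
    linarith
  · have key : ∀ t : ℝ, 0 ≤ t → |t ^ 2 * Real.log t| ≤ 4 / 3 * t ^ (11 / 4 : ℝ) + 1 := by
      intro t ht
      have h3 : 0 ≤ t ^ (11 / 4 : ℝ) := by positivity
      rcases ht.eq_or_lt with h' | h'
      · rw [← h']; simp
      rcases le_or_gt 1 t with h1 | h1
      · have h4 := Real.log_le_rpow_div ht (show (0 : ℝ) < 3 / 4 by norm_num)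
        have h5 := Real.log_nonneg h1
        rw [abs_of_nonneg (by positivity)]
        have h6 : t ^ 2 * Real.log t ≤ t ^ 2 * (t ^ (3 / 4 : ℝ) / (3 / 4)) :=
          mul_le_mul_of_nonneg_left h4 (by positivity)
        have h7 : t ^ 2 * t ^ (3 / 4 : ℝ) = t ^ (11 / 4 : ℝ) := by
          rw [← Real.rpow_natCast t 2, ← Real.rpow_add h']; norm_num
        have h8 : t ^ 2 * (t ^ (3 / 4 : ℝ) / (3 / 4)) = 4 / 3 * t ^ (11 / 4 : ℝ) := by
          rw [← h7]; ring
        linarith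
      · have h5 : Real.log t ≤ 0 := Real.log_nonpos ht h1.le
        rw [abs_of_nonpos (mul_nonpos_of_nonneg_of_nonpos (by positivity) h5)]
        have h6 := Real.one_sub_inv_le_log_of_pos h'
        have h7 : t ^ 2 * (1 - t⁻¹) ≤ t ^ 2 * Real.log t :=
          mul_le_mul_of_nonneg_left h6 (by positivity)
        have h8 : t ^ 2 * (1 - t⁻¹) = t ^ 2 - t := by field_simp
        nlinarith
    have hA : ∀ t : ℝ, 0 ≤ t → t ≤ 3 * y → |t ^ 2 * Real.log t| ≤ 4 / 3 * (27 * y ^ (11 / 4 : ℝ)) + 8 * y ^ (11 / 4 : ℝ) := by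
      intro t ht h3
      refine (key t ht).trans ?_
      have h4 : t ^ (11 / 4 : ℝ) ≤ 27 * y ^ (11 / 4 : ℝ) := by
        have h5 : t ^ (11 / 4 : ℝ) ≤ (3 * y) ^ (11 / 4 : ℝ) :=
          Real.rpow_le_rpow ht h3 (by norm_num)
        rw [Real.mul_rpow (by norm_num) h0] at h5
        have h6 : (3 : ℝ) ^ (11 / 4 : ℝ) ≤ 27 := by
          calc (3 : ℝ) ^ (11 / 4 : ℝ) ≤ (3 : ℝ) ^ (3 : ℝ) :=
                Real.rpow_le_rpow_of_exponent_le (by norm_num) (by norm_num)
            _ = 27 := by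
                rw [show (3 : ℝ) = ((3 : ℕ) : ℝ) by norm_num, Real.rpow_natCast]; norm_num
        have h7 : 0 ≤ y ^ (11 / 4 : ℝ) := by positivity
        nlinarith
      have h5 : 1 ≤ 8 * y ^ (11 / 4 : ℝ) := by
        have h6 : (1 / 2 : ℝ) ^ (11 / 4 : ℝ) ≤ y ^ (11 / 4 : ℝ) :=
          Real.rpow_le_rpow (by norm_num) h.le (by norm_num)
        have h7 : (1 / 2 : ℝ) ^ (3 : ℝ) ≤ (1 / 2 : ℝ) ^ (11 / 4 : ℝ) :=
          Real.rpow_le_rpow_of_exponent_ge (by norm_num) (by norm_num) (by norm_num)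
        have h8 : (1 / 2 : ℝ) ^ (3 : ℝ) = 1 / 8 := by
          rw [show (3 : ℝ) = ((3 : ℕ) : ℝ) by norm_num, Real.rpow_natCast]; norm_num
        linarith
      linarith
    have hy2 : y ^ 2 ≤ 2 * y ^ (11 / 4 : ℝ) := by
      have h7 : y ^ 2 * y ^ (3 / 4 : ℝ) = y ^ (11 / 4 : ℝ) := by
        rw [← Real.rpow_natCast y 2, ← Real.rpow_add (by linarith)]; norm_num
      have h6 : (1 / 2 : ℝ) ^ (3 / 4 : ℝ) ≤ y ^ (3 / 4 : ℝ) :=
        Real.rpow_le_rpow (by norm_num) h.le (by norm_num)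
      have h8 : (1 / 2 : ℝ) ^ (1 : ℝ) ≤ (1 / 2 : ℝ) ^ (3 / 4 : ℝ) :=
        Real.rpow_le_rpow_of_exponent_ge (by norm_num) (by norm_num) (by norm_num)
      rw [Real.rpow_one] at h8
      rw [← h7]
      nlinarith [sq_nonneg y]
    have h1 := hA (1 + y) (by linarith) (by linarith)
    have h2 : |(1 - y) ^ 2 * Real.log (1 - y)| ≤
        4 / 3 * (27 * y ^ (11 / 4 : ℝ)) + 8 * y ^ (11 / 4 : ℝ) := by
      have := hA |1 - y| (abs_nonneg _) (by rw [abs_le]; constructor <;> linarith)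
      rwa [sq_abs, Real.log_abs] at this
    rw [gg_eq]
    rw [abs_le] at h1 h2 ⊢
    have h9 : 0 ≤ y ^ (11 / 4 : ℝ) := by positivity
    have h10 : 0 ≤ y ^ 2 := by positivity
    constructor <;> linarith [h1.1, h1.2, h2.1, h2.2]

end A11b

end Pool.Agent.H87.LE
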