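import Pool.Agent.H14.LE.SignA

/-! # A11b (helper14): the logarithmic integral over a period -/

open MeasureTheory Complex Set Filter Topology
open scoped ContDiff Laplacian

namespace Pool.Agent.H87.LE

namespace A11b

lemma logsin_int (a b : ℝ) : IntervalIntegrable (fun η => Real.log (Real.sin η)) volume a b :=
  intervalIntegrable_log_sin

lemma logsin_periodic : Function.Periodic (fun η => Real.log (Real.sin η)) Real.pi := by
  intro η
  simp only [Real.sin_add_pi, Real.log_neg_eq_log]

lemma logsin_shift (c : ℝ) : IntervalIntegrable (fun η => Real.log (Real.sin (η + c))) volume 0 Real.pi ∧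
    ∫ η in (0 : ℝ)..Real.pi, Real.log (Real.sin (η + c)) =
      ∫ η in (0 : ℝ)..Real.pi, Real.log (Real.sin η) := by
  constructor
  · have := (logsin_int (0 + c) (Real.pi + c)).comp_add_right c
    simpa using this
  · rw [intervalIntegral.integral_comp_add_right (fun η => Real.log (Real.sin η)) c]
    have := logsin_periodic.intervalIntegral_add_eq (0 + c) 0
    rw [zero_add] at this ⊢
    rw [add_comm Real.pi c, this, zero_add]

lemma ae_sin_ne (c : ℝ) : ∀ᵐ η : ℝ, Real.sin (η + c) ≠ 0 := by
  have hc : {η : ℝ | Real.sin (η + c) = 0}.Countable := by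
    apply (countable_range (fun n : ℤ => (n : ℝ) * Real.pi - c)).mono
    intro η hη
    obtain ⟨n, hn⟩ := Real.sin_eq_zero_iff.1 hη
    exact ⟨n, by simp only; linarith⟩
  have := hc.measure_zero (volume : Measure ℝ)
  rw [ae_iff]
  simpa using this

lemma log_ae {x : ℝ} (h0 : 0 ≤ x) (h1 : x ≤ 1) : ∃ α : ℝ, ∀ᵐ η : ℝ,
    Real.log |1 - x ^ 2 / Real.sin η ^ 2| = Real.log (Real.sin (η + α)) +
      Real.log (Real.sin (η + -α)) - 2 * Real.log (Real.sin η) := by
  refine ⟨Real.arcsin x, ?_⟩
  have hx : Real.sin (Real.arcsin x) = x := Real.sin_arcsin (by linarith) h1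
  filter_upwards [ae_sin_ne (Real.arcsin x), ae_sin_ne (-Real.arcsin x), ae_sin_ne 0] with η h2 h3 h4
  rw [add_zero] at h4
  have e : 1 - x ^ 2 / Real.sin η ^ 2 =
      Real.sin (η + Real.arcsin x) * Real.sin (η + -Real.arcsin x) / (Real.sin η * Real.sin η) := by
    rw [Real.sin_add, Real.sin_add, Real.sin_neg, Real.cos_neg, hx]
    have h5 := Real.sin_sq_add_cos_sq η
    have h6 := Real.sin_sq_add_cos_sq (Real.arcsin x)
    rw [hx] at h6
    field_simp
    have h7 : Real.cos (Real.arcsin x) ^ 2 = 1 - x ^ 2 := by linarith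
    have h8 : Real.cos η ^ 2 = 1 - Real.sin η ^ 2 := by linarith
    linear_combination (-Real.sin η ^ 2) * h7 + x ^ 2 * h8
  rw [Real.log_abs, e, Real.log_div (mul_ne_zero h2 h3) (mul_ne_zero h4 h4), Real.log_mul h2 h3,
    Real.log_mul h4 h4]
  ring

end A11b

open A11b in
/-- for `0 ≤ x ≤ 1` the integral of `log |1 - x²/sin² η|` vanishes -/
theorem A11b.log_int_zero' {x : ℝ} (h0 : 0 ≤ x) (h1 : x ≤ 1) :
    IntervalIntegrable (fun η => Real.log |1 - x ^ 2 / Real.sin η ^ 2|) volume 0 Real.pi ∧
      ∫ η in (0 : ℝ)..Real.pi, Real.log |1 - x ^ 2 / Real.sin η ^ 2| = 0 := by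
  obtain ⟨α, hα⟩ := log_ae h0 h1
  have i1 := logsin_shift α
  have i2 := logsin_shift (-α)
  have i3 := (logsin_int 0 Real.pi).const_mul 2
  have hi := (i1.1.add i2.1).sub i3
  constructor
  · apply hi.congr_ae
    apply ae_restrict_of_ae
    filter_upwards [hα] with η hη
    rw [hη]
  · rw [intervalIntegral.integral_congr_ae (g := fun η => Real.log (Real.sin (η + α)) +
      Real.log (Real.sin (η + -α)) - 2 * Real.log (Real.sin η))
      (by filter_upwards [hα] with η hη _ using hη)]
    rw [intervalIntegral.integral_sub (i1.1.add i2.1) i3,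
      intervalIntegral.integral_add i1.1 i2.1, i1.2, i2.2, intervalIntegral.integral_const_mul]
    ring

end Pool.Agent.H87.LE
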