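import Pool.Agent.H14.LE.SignB

/-! # A11b (helper14): Fubini: integrals of gg over the angle -/

open MeasureTheory Complex Set Filter Topology
open scoped ContDiff Laplacian

namespace Pool.Agent.H87.LE

namespace A11b

/-- the logarithm -/
noncomputable def LL (s t : ℝ) : ℝ := Real.log |1 - t ^ 2 / s ^ 2|

lemma LL_bound {s t : ℝ} (hs : 0 < s) (ht : 0 ≤ t) :
    |LL s t| ≤ |Real.log (s - t)| + |Real.log (s + t)| + 2 * |Real.log s| := by
  unfold LL
  by_cases h : s - t = 0
  · have h1 : s = t := by linarith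
    rw [← h1, div_self (by positivity)]
    simp only [sub_self, abs_zero, Real.log_zero]
    positivity
  · have h2 : s + t ≠ 0 := by positivity
    have e : 1 - t ^ 2 / s ^ 2 = (s - t) * (s + t) / (s * s) := by field_simp; ring
    rw [Real.log_abs, e, Real.log_div (mul_ne_zero h h2) (mul_ne_zero hs.ne' hs.ne'),
      Real.log_mul h h2, Real.log_mul hs.ne' hs.ne']
    calc |Real.log (s - t) + Real.log (s + t) - (Real.log s + Real.log s)|
        ≤ |Real.log (s - t) + Real.log (s + t)| + |Real.log s + Real.log s| := abs_sub _ _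
      _ ≤ (|Real.log (s - t)| + |Real.log (s + t)|) + (|Real.log s| + |Real.log s|) :=
          add_le_add (abs_add_le _ _) (abs_add_le _ _)
      _ = _ := by ring

lemma log_int (a b : ℝ) : IntervalIntegrable (fun t => Real.log t) volume a b :=
  intervalIntegral.intervalIntegrable_log'

lemma B_int (s κ : ℝ) : IntervalIntegrable (fun t =>
    |Real.log (s - t)| + |Real.log (s + t)| + 2 * |Real.log s|) volume 0 κ := by
  have h1 : IntervalIntegrable (fun t => Real.log (s - t)) volume 0 κ := by
    have := (log_int s (s - κ)).comp_sub_left s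
    simpa using this
  have h2 : IntervalIntegrable (fun t => Real.log (s + t)) volume 0 κ := by
    have := (log_int s (s + κ)).comp_add_left s
    simpa using this
  exact (h1.abs.add h2.abs).add intervalIntegrable_const

lemma LL_meas : Measurable (Function.uncurry LL) := by
  unfold LL Function.uncurry
  fun_prop

lemma LL_int {s : ℝ} (hs : 0 < s) {κ : ℝ} (hκ : 0 ≤ κ) :
    IntervalIntegrable (LL s) volume 0 κ := by
  refine (B_int s κ).mono_fun ?_ ?_
  · exact (LL_meas.comp (measurable_const.prodMk measurable_id)).aestronglyMeasurable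
  · rw [uIoc_of_le hκ]
    filter_upwards [ae_restrict_mem measurableSet_Ioc] with t ht
    rw [Real.norm_eq_abs, Real.norm_eq_abs]
    refine (LL_bound hs ht.1.le).trans (le_abs_self _)

lemma LL_norm_int {s : ℝ} (hs : 0 < s) (hs1 : s ≤ 1) {κ : ℝ} (hκ : 0 ≤ κ) :
    ∫ t in (0 : ℝ)..κ, |LL s t| ≤ 2 * (∫ u in (-κ)..(1 + κ), |Real.log u|) +
      2 * κ * |Real.log s| := by
  have h1 : IntervalIntegrable (fun t => |Real.log (s - t)|) volume 0 κ := by
    have := (log_int s (s - κ)).comp_sub_left s
    simpa using this.abs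
  have h2 : IntervalIntegrable (fun t => |Real.log (s + t)|) volume 0 κ := by
    have := (log_int s (s + κ)).comp_add_left s
    simpa using this.abs
  have h3 : ∫ t in (0 : ℝ)..κ, |LL s t| ≤ ∫ t in (0 : ℝ)..κ,
      (|Real.log (s - t)| + |Real.log (s + t)| + 2 * |Real.log s|) := by
    apply intervalIntegral.integral_mono_on hκ (LL_int hs hκ).abs (B_int s κ)
    intro t ht
    exact LL_bound hs ht.1
  have h4 : ∫ t in (0 : ℝ)..κ, (|Real.log (s - t)| + |Real.log (s + t)| + 2 * |Real.log s|) =
      (∫ t in (0 : ℝ)..κ, |Real.log (s - t)|) + (∫ t in (0 : ℝ)..κ, |Real.log (s + t)|) +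
        2 * κ * |Real.log s| := by
    rw [intervalIntegral.integral_add (h1.add h2) intervalIntegrable_const,
      intervalIntegral.integral_add h1 h2, intervalIntegral.integral_const]
    simp only [smul_eq_mul]; ring
  have h5 : ∫ t in (0 : ℝ)..κ, |Real.log (s - t)| ≤ ∫ u in (-κ)..(1 + κ), |Real.log u| := by
    rw [intervalIntegral.integral_comp_sub_left (fun u => |Real.log u|) s]
    apply intervalIntegral.integral_mono_interval (by linarith) (by linarith) (by linarith)
      (Eventually.of_forall fun u => abs_nonneg _) (log_int _ _).abs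
  have h6 : ∫ t in (0 : ℝ)..κ, |Real.log (s + t)| ≤ ∫ u in (-κ)..(1 + κ), |Real.log u| := by
    rw [intervalIntegral.integral_comp_add_left (fun u => |Real.log u|) s]
    apply intervalIntegral.integral_mono_interval (by linarith) (by linarith) (by linarith)
      (Eventually.of_forall fun u => abs_nonneg _) (log_int _ _).abs
  linarith

/-- Taylor formula with integral remainder -/
lemma taylor {s : ℝ} (hs : 0 < s) {κ : ℝ} (hκ : 0 ≤ κ) :
    ∫ t in (0 : ℝ)..κ, (κ - t) * LL s t = s ^ 2 * gg (κ / s) := by
  have hi : IntervalIntegrable (fun t => (κ - t) * LL s t) volume 0 κ :=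
    (LL_int hs hκ).continuousOn_mul (by fun_prop)
  have h := integral_eq_of_hasDerivAt_off_countable
    (fun t => s ^ 2 * gg (t / s) + (κ - t) * (s * g1 (t / s))) (fun t => (κ - t) * LL s t)
    (a := 0) (b := κ) (s := {s}) (countable_singleton s)
    (by
      have h1 := gg_cont
      have h2 := g1_cont
      have h3 : Continuous fun t : ℝ => gg (t / s) := h1.comp (continuous_id.div_const s)
      have h4 : Continuous fun t : ℝ => g1 (t / s) := h2.comp (continuous_id.div_const s)
      fun_prop)
    (by
      intro t ht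
      rw [min_eq_left hκ, max_eq_right hκ] at ht
      obtain ⟨ht1, ht2⟩ := ht
      have hts : t / s ≠ 1 := by
        rw [Ne, div_eq_one_iff_eq hs.ne']; exact ht2
      have ht0 : 0 ≤ t / s := div_nonneg ht1.1.le hs.le
      have d0 : HasDerivAt (fun t : ℝ => t / s) (1 / s) t := (hasDerivAt_id t).div_const s
      have d1 := (gg_deriv ht0 hts).comp t d0
      have d2 := (g1_deriv ht0 hts).comp t d0
      have d3 := (d1.const_mul (s ^ 2)).add
        (((hasDerivAt_id t).const_sub κ).mul (d2.const_mul s))
      refine d3.congr_deriv ?_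
      unfold LL
      rw [div_pow]
      simp only [id, Function.comp]
      field_simp
      ring)
    hi
  rw [h]
  simp [gg_zero, g1_zero]

/-- inner integrals -/
noncomputable def Lam (t : ℝ) : ℝ := ∫ η in Ioo 0 Real.pi, LL (Real.sin η) t

noncomputable def Gam (κ : ℝ) : ℝ := ∫ η in Ioo 0 Real.pi, Real.sin η ^ 2 * gg (κ / Real.sin η)

lemma sin_pos' {η : ℝ} (h : η ∈ Ioo 0 Real.pi) : 0 < Real.sin η :=
  Real.sin_pos_of_mem_Ioo h

lemma LL_prod_int {κ : ℝ} (hκ : 0 ≤ κ) : Integrable (fun p : ℝ × ℝ => LL (Real.sin p.1) p.2)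
    ((volume.restrict (Ioo 0 Real.pi)).prod (volume.restrict (Ioc 0 κ))) := by
  have hm : Measurable (fun p : ℝ × ℝ => LL (Real.sin p.1) p.2) := by
    unfold LL
    fun_prop
  rw [integrable_prod_iff hm.aestronglyMeasurable]
  constructor
  · filter_upwards [ae_restrict_mem measurableSet_Ioo] with η hη
    have := LL_int (sin_pos' hη) hκ
    rwa [intervalIntegrable_iff_integrableOn_Ioc_of_le hκ] at this
  · have hlog : Integrable (fun η => 2 * (∫ u in (-κ)..(1 + κ), |Real.log u|) +
        2 * κ * |Real.log (Real.sin η)|) (volume.restrict (Ioo 0 Real.pi)) := by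
      have h1 := (logsin_int 0 Real.pi).abs
      rw [intervalIntegrable_iff_integrableOn_Ioo_of_le Real.pi_pos.le] at h1
      exact (integrable_const _).add (h1.const_mul _)
    refine hlog.mono' (hm.aestronglyMeasurable.norm.integral_prod_right') ?_
    filter_upwards [ae_restrict_mem measurableSet_Ioo] with η hη
    rw [Real.norm_eq_abs, abs_of_nonneg (integral_nonneg fun _ => norm_nonneg _)]
    have := LL_norm_int (sin_pos' hη) (Real.sin_le_one η) hκ
    rw [intervalIntegral.integral_of_le hκ] at this
    exact this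

lemma Gam_eq {κ : ℝ} (hκ : 0 ≤ κ) : Gam κ = ∫ t in Ioc 0 κ, (κ - t) * Lam t := by
  have h1 : Gam κ = ∫ η in Ioo 0 Real.pi, ∫ t in Ioc 0 κ, (κ - t) * LL (Real.sin η) t := by
    unfold Gam
    apply setIntegral_congr_fun measurableSet_Ioo
    intro η hη
    simp only
    rw [← taylor (sin_pos' hη) hκ, intervalIntegral.integral_of_le hκ]
  rw [h1, integral_integral_swap]
  · apply integral_congr_ae
    filter_upwards with t
    unfold Lam
    rw [integral_const_mul]
  · have hm : Measurable (Function.uncurry fun η t : ℝ => (κ - t) * LL (Real.sin η) t) := by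
      unfold LL Function.uncurry
      fun_prop
    refine ((LL_prod_int hκ).norm.const_mul κ).mono' hm.aestronglyMeasurable ?_
    rw [Measure.prod_restrict]
    filter_upwards [ae_restrict_mem (measurableSet_Ioo.prod measurableSet_Ioc)] with p hp
    simp only [Function.uncurry, norm_mul]
    apply mul_le_mul_of_nonneg_right _ (norm_nonneg _)
    rw [Real.norm_eq_abs, abs_of_nonneg (by linarith [hp.2.2])]
    linarith [hp.2.1]

lemma Lam_zero {t : ℝ} (h0 : 0 ≤ t) (h1 : t ≤ 1) : Lam t = 0 := by
  have := (log_int_zero' h0 h1).2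
  rw [intervalIntegral.integral_of_le Real.pi_pos.le, integral_Ioc_eq_integral_Ioo] at this
  exact this

lemma Lam_nonneg {t : ℝ} (h0 : 0 ≤ t) : 0 ≤ Lam t := by
  rcases le_or_gt t 1 with h | h
  · exact (Lam_zero h0 h).ge
  · by_cases hi : IntegrableOn (fun η => LL (Real.sin η) t) (Ioo 0 Real.pi)
    · rw [← Lam_zero zero_le_one le_rfl]
      unfold Lam
      have hi1 : IntegrableOn (fun η => LL (Real.sin η) 1) (Ioo 0 Real.pi) := by
        have := (log_int_zero' zero_le_one le_rfl).1
        rwa [intervalIntegrable_iff_integrableOn_Ioo_of_le Real.pi_pos.le] at this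
      apply integral_mono_ae hi1 hi
      have h2 : ∀ᵐ η : ℝ, Real.sin (η + Real.pi / 2) ≠ 0 := ae_sin_ne _
      filter_upwards [ae_restrict_mem measurableSet_Ioo, ae_restrict_of_ae h2] with η hη h3
      rw [Real.sin_add_pi_div_two] at h3
      have hs := sin_pos' hη
      have hs1 : Real.sin η ^ 2 < 1 := by
        have := Real.sin_sq_add_cos_sq η
        have : 0 < Real.cos η ^ 2 := by positivity
        linarith
      have hs2 : 0 < Real.sin η ^ 2 := by positivity
      unfold LL
      have e1 : 1 < 1 ^ 2 / Real.sin η ^ 2 := by rw [lt_div_iff₀ hs2]; linarith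
      have e2 : (1 : ℝ) ^ 2 / Real.sin η ^ 2 ≤ t ^ 2 / Real.sin η ^ 2 := by
        gcongr
      rw [abs_sub_comm, abs_of_pos (by linarith), abs_sub_comm, abs_of_pos (by linarith)]
      exact Real.log_le_log (by linarith) (by linarith)
    · unfold Lam
      rw [integral_undef hi]

lemma Gam_zero {κ : ℝ} (h0 : 0 ≤ κ) (h1 : κ ≤ 1) : Gam κ = 0 := by
  rw [Gam_eq h0]
  rw [setIntegral_congr_fun (g := fun _ => (0 : ℝ)) measurableSet_Ioc]
  · simp
  · intro t ht
    simp only
    rw [Lam_zero ht.1.le (ht.2.trans h1), mul_zero]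

lemma Gam_nonneg {κ : ℝ} (h0 : 0 ≤ κ) : 0 ≤ Gam κ := by
  rw [Gam_eq h0]
  apply setIntegral_nonneg measurableSet_Ioc
  intro t ht
  exact mul_nonneg (by linarith [ht.2]) (Lam_nonneg ht.1.le)

end A11b

end Pool.Agent.H87.LE
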