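import Pool.Agent.H14.LE.SignC

/-! # A11b (helper14): integrability on the strip, TT 1 < 0 -/

open MeasureTheory Complex Set Filter Topology
open scoped ContDiff Laplacian

namespace Pool.Agent.H87.LE

namespace A11b

lemma strip_eq : Strip = Ioi (0 : ℝ) ×ˢ Ioo 0 Real.pi := by
  ext p
  simp only [Strip, mem_ofPred_eq, mem_prod, mem_Ioi, mem_Ioo]

lemma strip_meas : MeasurableSet Strip := by
  rw [strip_eq]; exact measurableSet_Ioi.prod measurableSet_Ioo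

lemma strip_measure : (volume : Measure (ℝ × ℝ)).restrict Strip =
    (volume.restrict (Ioi (0 : ℝ))).prod (volume.restrict (Ioo 0 Real.pi)) := by
  rw [strip_eq, Measure.prod_restrict]; rfl

/-- upper bound of the Jacobian -/
noncomputable def Jx (ξ : ℝ) : ℝ := Real.cosh ξ ^ 2 / (16 * Real.sinh ξ ^ (3 / 2 : ℝ))

/-- lower bound of the Jacobian -/
noncomputable def Jn (ξ : ℝ) : ℝ := Real.sinh ξ ^ 2 / (16 * Real.cosh ξ ^ (3 / 2 : ℝ))

/-- Jacobian in the variables `a = sinh² ξ`, `σ = sin² η` -/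
noncomputable def Jf (a σ : ℝ) : ℝ := (a + σ) / (16 * (a + 1 - σ) ^ (3 / 4 : ℝ))

lemma Jac_eq (ξ η : ℝ) : Jac ξ η = Jf (Real.sinh ξ ^ 2) (Real.sin η ^ 2) := by
  unfold Jac Jf
  have : Real.sinh ξ ^ 2 + Real.cos η ^ 2 = Real.sinh ξ ^ 2 + 1 - Real.sin η ^ 2 := by
    have := Real.sin_sq_add_cos_sq η
    linarith
  rw [this]

lemma Jf_lt {a σ τ : ℝ} (ha : 0 < a) (h0 : 0 ≤ σ) (h : σ < τ) (h1 : τ ≤ 1) : Jf a σ < Jf a τ := by
  unfold Jf
  have h2 : (a + 1 - τ) ^ (3 / 4 : ℝ) < (a + 1 - σ) ^ (3 / 4 : ℝ) :=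
    Real.rpow_lt_rpow (by linarith) (by linarith) (by norm_num)
  have h3 : 0 < (a + 1 - τ) ^ (3 / 4 : ℝ) := Real.rpow_pos_of_pos (by linarith) _
  apply div_lt_div₀ (by linarith) (by linarith) (by linarith) (by positivity)

lemma Jf_le {a σ τ : ℝ} (ha : 0 < a) (h0 : 0 ≤ σ) (h : σ ≤ τ) (h1 : τ ≤ 1) : Jf a σ ≤ Jf a τ := by
  rcases h.eq_or_lt with h | h
  · rw [h]
  · exact (Jf_lt ha h0 h h1).le

lemma Jf_one {ξ : ℝ} (hξ : 0 < ξ) : Jf (Real.sinh ξ ^ 2) 1 = Jx ξ := by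
  have hs : 0 < Real.sinh ξ := Real.sinh_pos_iff.2 hξ
  unfold Jf Jx
  rw [add_sub_cancel_right, ← Real.rpow_natCast (Real.sinh ξ) 2, ← Real.rpow_mul hs.le]
  have : ((2 : ℕ) : ℝ) * (3 / 4) = 3 / 2 := by norm_num
  rw [this, Real.rpow_natCast, Real.cosh_sq]

lemma Jf_zero {ξ : ℝ} : Jf (Real.sinh ξ ^ 2) 0 = Jn ξ := by
  have hs : 0 < Real.cosh ξ := Real.cosh_pos ξ
  unfold Jf Jn
  rw [sub_zero, add_zero, ← Real.cosh_sq, ← Real.rpow_natCast (Real.cosh ξ) 2, ← Real.rpow_mul hs.le]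
  have : ((2 : ℕ) : ℝ) * (3 / 4) = 3 / 2 := by norm_num
  rw [this]

lemma Jn_nonneg {ξ : ℝ} : 0 ≤ Jn ξ := by unfold Jn; positivity

/-- `sinh ξ ≥ ξ e^ξ/(1+2ξ)` -/
lemma sinh_lower {ξ : ℝ} (hξ : 0 < ξ) : ξ * Real.exp ξ / (1 + 2 * ξ) ≤ Real.sinh ξ := by
  rw [Real.sinh_eq, div_le_iff₀ (by linarith)]
  have h1 : Real.exp (-ξ) * Real.exp ξ = 1 := by rw [← Real.exp_add]; simp
  have h2 : 1 + 2 * ξ ≤ Real.exp (2 * ξ) := by linarith [Real.add_one_le_exp (2 * ξ)]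
  have h3 : Real.exp (2 * ξ) = Real.exp ξ * Real.exp ξ := by rw [← Real.exp_add]; ring_nf
  have h4 : 0 < Real.exp (-ξ) := Real.exp_pos _
  have h5 : (1 + 2 * ξ) * Real.exp (-ξ) ≤ Real.exp ξ := by
    calc (1 + 2 * ξ) * Real.exp (-ξ) ≤ Real.exp (2 * ξ) * Real.exp (-ξ) := by gcongr
      _ = Real.exp ξ := by rw [h3]; linear_combination Real.exp ξ * h1
  nlinarith

lemma poly_exp {ξ : ℝ} (hξ : 0 < ξ) : (1 + 2 * ξ) ^ (3 : ℝ) ≤ 48 ^ 3 * Real.exp (ξ / 8) := by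
  have h1 : 1 + 2 * ξ ≤ 48 * Real.exp (ξ / 24) := by
    have := Real.add_one_le_exp (ξ / 24)
    linarith
  have h2 : (1 + 2 * ξ) ^ 3 ≤ (48 * Real.exp (ξ / 24)) ^ 3 := by
    apply pow_le_pow_left₀ (by linarith) h1
  have h3 : (48 * Real.exp (ξ / 24)) ^ 3 = 48 ^ 3 * Real.exp (ξ / 8) := by
    rw [mul_pow, ← Real.exp_nat_mul]
    congr 2
    push_cast; ring
  have h4 : (1 + 2 * ξ) ^ (3 : ℝ) = (1 + 2 * ξ) ^ 3 := by exact_mod_cast Real.rpow_natCast _ 3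
  rw [h4, ← h3]
  exact h2

/-- radial majorant -/
lemma rad_bound {ξ : ℝ} (hξ : 0 < ξ) : Jx ξ * (ξ ^ (11 / 4 : ℝ) * Real.sinh ξ ^ (-(3 / 4) : ℝ)) ≤
    48 ^ 3 * Real.exp (-(ξ / 8)) := by
  have hs : 0 < Real.sinh ξ := Real.sinh_pos_iff.2 hξ
  set q : ℝ := ξ * Real.exp ξ / (1 + 2 * ξ) with hq
  have hq0 : 0 < q := by positivity
  have hqs : q ≤ Real.sinh ξ := sinh_lower hξ
  have e1 : Jx ξ * (ξ ^ (11 / 4 : ℝ) * Real.sinh ξ ^ (-(3 / 4) : ℝ)) =
      Real.cosh ξ ^ 2 / 16 * ξ ^ (11 / 4 : ℝ) * Real.sinh ξ ^ (-(9 / 4) : ℝ) := by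
    unfold Jx
    have : Real.sinh ξ ^ (-(9 / 4) : ℝ) = Real.sinh ξ ^ (-(3 / 4) : ℝ) / Real.sinh ξ ^ (3 / 2 : ℝ) := by
      rw [← Real.rpow_sub hs]; norm_num
    rw [this]; field_simp
  have hc : Real.cosh ξ ≤ Real.exp ξ := by
    rw [Real.cosh_eq]
    have : Real.exp (-ξ) ≤ Real.exp ξ := Real.exp_le_exp.2 (by linarith)
    linarith
  have h1 : Real.sinh ξ ^ (-(9 / 4) : ℝ) ≤ q ^ (-(9 / 4) : ℝ) :=
    Real.rpow_le_rpow_of_nonpos hq0 hqs (by norm_num)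
  have h2 : q ^ (-(9 / 4) : ℝ) = ξ ^ (-(9 / 4) : ℝ) * Real.exp (-(9 / 4) * ξ) *
      (1 + 2 * ξ) ^ (9 / 4 : ℝ) := by
    rw [hq, Real.div_rpow (by positivity) (by linarith), Real.mul_rpow hξ.le (Real.exp_pos _).le,
      ← Real.exp_mul, Real.rpow_neg (by linarith : 0 ≤ 1 + 2 * ξ), div_inv_eq_mul]
    congr 3
    ring
  have h3 : ξ ^ (11 / 4 : ℝ) * ξ ^ (-(9 / 4) : ℝ) = ξ ^ (1 / 2 : ℝ) := by
    rw [← Real.rpow_add hξ]; norm_num
  have h4 : ξ ^ (1 / 2 : ℝ) ≤ (1 + 2 * ξ) ^ (1 / 2 : ℝ) :=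
    Real.rpow_le_rpow hξ.le (by linarith) (by norm_num)
  have h5 : (1 + 2 * ξ) ^ (1 / 2 : ℝ) * (1 + 2 * ξ) ^ (9 / 4 : ℝ) ≤ (1 + 2 * ξ) ^ (3 : ℝ) := by
    rw [← Real.rpow_add (by linarith)]
    exact Real.rpow_le_rpow_of_exponent_le (by linarith) (by norm_num)
  have h6 := poly_exp hξ
  have h7 : Real.cosh ξ ^ 2 ≤ Real.exp (2 * ξ) := by
    have : Real.exp (2 * ξ) = Real.exp ξ ^ 2 := by rw [← Real.exp_nat_mul]; norm_num
    rw [this]
    exact pow_le_pow_left₀ (Real.cosh_pos _).le hc 2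
  rw [e1]
  calc Real.cosh ξ ^ 2 / 16 * ξ ^ (11 / 4 : ℝ) * Real.sinh ξ ^ (-(9 / 4) : ℝ)
      ≤ Real.exp (2 * ξ) / 16 * ξ ^ (11 / 4 : ℝ) * (ξ ^ (-(9 / 4) : ℝ) * Real.exp (-(9 / 4) * ξ) *
      (1 + 2 * ξ) ^ (9 / 4 : ℝ)) := by
        rw [← h2]; gcongr
    _ = (ξ ^ (11 / 4 : ℝ) * ξ ^ (-(9 / 4) : ℝ)) * (1 + 2 * ξ) ^ (9 / 4 : ℝ) *
        (Real.exp (2 * ξ) * Real.exp (-(9 / 4) * ξ)) / 16 := by ring
    _ = ξ ^ (1 / 2 : ℝ) * (1 + 2 * ξ) ^ (9 / 4 : ℝ) * Real.exp (-(ξ / 4)) / 16 := by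
        rw [h3, ← Real.exp_add]; congr 3; ring
    _ ≤ ((1 + 2 * ξ) ^ (1 / 2 : ℝ) * (1 + 2 * ξ) ^ (9 / 4 : ℝ)) * Real.exp (-(ξ / 4)) / 1 := by
        gcongr; norm_num
    _ ≤ (48 ^ 3 * Real.exp (ξ / 8)) * Real.exp (-(ξ / 4)) := by
        rw [div_one]
        exact mul_le_mul_of_nonneg_right (h5.trans h6) (Real.exp_pos _).le
    _ = 48 ^ 3 * Real.exp (-(ξ / 8)) := by
        rw [mul_assoc, ← Real.exp_add]; congr 2; ring

lemma sin_rpow_int : IntegrableOn (fun η => Real.sin η ^ (-(3 / 4) : ℝ)) (Ioo 0 Real.pi) := by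
  have h1 : IntegrableOn (fun η : ℝ => η ^ (-(3 / 4) : ℝ)) (Ioo 0 Real.pi) := by
    have := intervalIntegral.intervalIntegrable_rpow' (a := 0) (b := Real.pi)
      (show (-1 : ℝ) < -(3 / 4) by norm_num)
    rwa [intervalIntegrable_iff_integrableOn_Ioo_of_le Real.pi_pos.le] at this
  have h2 : IntegrableOn (fun η : ℝ => (Real.pi - η) ^ (-(3 / 4) : ℝ)) (Ioo 0 Real.pi) := by
    have := (intervalIntegral.intervalIntegrable_rpow' (a := 0) (b := Real.pi)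
      (show (-1 : ℝ) < -(3 / 4) by norm_num)).comp_sub_left Real.pi
    simp only [sub_zero, sub_self] at this
    have := this.symm
    rwa [intervalIntegrable_iff_integrableOn_Ioo_of_le Real.pi_pos.le] at this
  have h3 : IntegrableOn (fun η : ℝ => 4 * (η ^ (-(3 / 4) : ℝ) + (Real.pi - η) ^ (-(3 / 4) : ℝ)))
      (Ioo 0 Real.pi) := (h1.add h2).const_mul 4
  refine Integrable.mono' h3 (Real.measurable_sin.pow_const _).aestronglyMeasurable ?_
  filter_upwards [ae_restrict_mem measurableSet_Ioo] with η hη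
  have hs := sin_pos' hη
  rw [Real.norm_eq_abs, abs_of_nonneg (Real.rpow_nonneg hs.le _)]
  have key : ∀ t : ℝ, 0 < t → t ≤ Real.pi / 2 → Real.sin t ^ (-(3 / 4) : ℝ) ≤ 4 * t ^ (-(3 / 4) : ℝ) := by
    intro t ht ht2
    have hj : 2 / Real.pi * t ≤ Real.sin t := Real.mul_le_sin ht.le ht2
    have hpi := Real.pi_pos
    have hpi4 := Real.pi_lt_four
    have h5 : t / 4 ≤ Real.sin t := by
      refine le_trans ?_ hj
      rw [div_mul_eq_mul_div, div_le_div_iff₀ (by norm_num) hpi]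
      nlinarith
    have h6 : Real.sin t ^ (-(3 / 4) : ℝ) ≤ (t / 4) ^ (-(3 / 4) : ℝ) :=
      Real.rpow_le_rpow_of_nonpos (by positivity) h5 (by norm_num)
    refine h6.trans ?_
    rw [Real.div_rpow ht.le (by norm_num), Real.rpow_neg (by norm_num : (0:ℝ) ≤ 4), div_inv_eq_mul,
      mul_comm]
    have h7 : (4 : ℝ) ^ (3 / 4 : ℝ) ≤ 4 ^ (1 : ℝ) :=
      Real.rpow_le_rpow_of_exponent_le (by norm_num) (by norm_num)
    rw [Real.rpow_one] at h7
    have h8 : 0 ≤ t ^ (-(3 / 4) : ℝ) := Real.rpow_nonneg ht.le _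
    exact mul_le_mul_of_nonneg_right h7 h8
  have p1 : 0 ≤ η ^ (-(3 / 4) : ℝ) := Real.rpow_nonneg hη.1.le _
  have p2 : 0 ≤ (Real.pi - η) ^ (-(3 / 4) : ℝ) := Real.rpow_nonneg (by linarith [hη.2]) _
  rcases le_or_gt η (Real.pi / 2) with h | h
  · have := key η hη.1 h
    linarith
  · have := key (Real.pi - η) (by linarith [hη.2]) (by linarith)
    rw [Real.sin_pi_sub] at this
    linarith

/-- the general integrand -/
noncomputable def FF (W : ℝ × ℝ → ℝ) (x : ℝ) (p : ℝ × ℝ) : ℝ :=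
  W p * (Real.sinh p.1 * Real.sin p.2) ^ 2 * gg (x * p.1 / (Real.sinh p.1 * Real.sin p.2))

lemma FF_int {W : ℝ × ℝ → ℝ} (hW : Measurable W) (hb : ∀ p ∈ Strip, |W p| ≤ Jx p.1) {x : ℝ}
    (hx : 0 ≤ x) : IntegrableOn (FF W x) Strip := by
  have hexp : IntegrableOn (fun ξ : ℝ => 48 ^ 3 * Real.exp (-(ξ / 8))) (Ioi 0) := by
    have h0 := integrableOn_exp_mul_Ioi (a := -(1 / 8 : ℝ)) (by norm_num) 0
    have h1 : IntegrableOn (fun ξ : ℝ => 48 ^ 3 * Real.exp (-(1 / 8) * ξ)) (Ioi 0) :=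
      Integrable.const_mul h0 (48 ^ 3)
    refine h1.congr_fun ?_ measurableSet_Ioi
    intro ξ _
    simp only
    congr 2
    ring
  have hmaj : IntegrableOn (fun p : ℝ × ℝ => (100 * x ^ (11 / 4 : ℝ)) *
      ((48 ^ 3 * Real.exp (-(p.1 / 8))) * Real.sin p.2 ^ (-(3 / 4) : ℝ))) Strip := by
    unfold IntegrableOn
    rw [strip_measure]
    exact (Integrable.mul_prod hexp sin_rpow_int).const_mul _
  refine Integrable.mono' hmaj ?_ ?_
  · apply Measurable.aestronglyMeasurable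
    unfold FF
    have := gg_cont.measurable
    have h1 : Measurable fun p : ℝ × ℝ => gg (x * p.1 / (Real.sinh p.1 * Real.sin p.2)) :=
      this.comp (by fun_prop)
    fun_prop
  · filter_upwards [ae_restrict_mem strip_meas] with p hp
    have hξ : 0 < p.1 := hp.1
    have hs : 0 < Real.sinh p.1 := Real.sinh_pos_iff.2 hξ
    have hη : 0 < Real.sin p.2 := sin_pos' ⟨hp.2.1, hp.2.2⟩
    set h : ℝ := Real.sinh p.1 * Real.sin p.2 with hh
    have hh0 : 0 < h := by positivity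
    have hJ : 0 ≤ Jx p.1 := (abs_nonneg _).trans (hb p hp)
    have hg := gg_bound (show 0 ≤ x * p.1 / h by positivity)
    have e1 : (x * p.1 / h) ^ (11 / 4 : ℝ) = x ^ (11 / 4 : ℝ) * p.1 ^ (11 / 4 : ℝ) *
        h ^ (-(11 / 4) : ℝ) := by
      rw [Real.div_rpow (by positivity) hh0.le, Real.mul_rpow hx hξ.le, Real.rpow_neg hh0.le]
      rfl
    have e2 : h ^ 2 * h ^ (-(11 / 4) : ℝ) = h ^ (-(3 / 4) : ℝ) := by
      rw [← Real.rpow_natCast h 2, ← Real.rpow_add hh0]; norm_num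
    have e3 : h ^ (-(3 / 4) : ℝ) = Real.sinh p.1 ^ (-(3 / 4) : ℝ) * Real.sin p.2 ^ (-(3 / 4) : ℝ) := by
      rw [hh, Real.mul_rpow hs.le hη.le]
    unfold FF
    rw [Real.norm_eq_abs, abs_mul, abs_mul, abs_of_nonneg (sq_nonneg (Real.sinh p.1 * Real.sin p.2)),
      ← hh]
    calc |W p| * h ^ 2 * |gg (x * p.1 / h)|
        ≤ Jx p.1 * h ^ 2 * (100 * (x * p.1 / h) ^ (11 / 4 : ℝ)) := by
          gcongr
          exact hb p hp
      _ = (100 * x ^ (11 / 4 : ℝ)) * (Jx p.1 * (p.1 ^ (11 / 4 : ℝ) *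
            Real.sinh p.1 ^ (-(3 / 4) : ℝ)) * Real.sin p.2 ^ (-(3 / 4) : ℝ)) := by
          rw [e1]
          have : Jx p.1 * h ^ 2 * (100 * (x ^ (11 / 4 : ℝ) * p.1 ^ (11 / 4 : ℝ) *
            h ^ (-(11 / 4) : ℝ))) = (100 * x ^ (11 / 4 : ℝ)) * (Jx p.1 * p.1 ^ (11 / 4 : ℝ) *
              (h ^ 2 * h ^ (-(11 / 4) : ℝ))) := by ring
          rw [this, e2, e3]; ring
      _ ≤ _ := by
          have := rad_bound hξ
          gcongr

lemma Jac_bounds {p : ℝ × ℝ} (hp : p ∈ Strip) : Jn p.1 ≤ Jac p.1 p.2 ∧ Jac p.1 p.2 ≤ Jx p.1 := by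
  have hs : 0 < Real.sinh p.1 := Real.sinh_pos_iff.2 hp.1
  have h1 : Real.sin p.2 ^ 2 ≤ 1 := Real.sin_sq_le_one _
  rw [Jac_eq, ← Jf_zero, ← Jf_one hp.1]
  exact ⟨Jf_le (by positivity) le_rfl (by positivity) h1,
    Jf_le (by positivity) (by positivity) h1 le_rfl⟩

lemma Jac_meas : Measurable fun p : ℝ × ℝ => Jac p.1 p.2 := by
  unfold Jac; fun_prop

lemma Tin_int (x : ℝ) (hx : 0 ≤ x) : IntegrableOn (Tin x) Strip := by
  have : Tin x = FF (fun p => Jac p.1 p.2) x := rfl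
  rw [this]
  apply FF_int Jac_meas _ hx
  intro p hp
  rw [abs_of_nonneg (Jn_nonneg.trans (Jac_bounds hp).1)]
  exact (Jac_bounds hp).2

/-- Fubini for radial weights -/
lemma FF_rad {w : ℝ → ℝ} (hw : Measurable w) (hb : ∀ ξ, 0 < ξ → |w ξ| ≤ Jx ξ) {x : ℝ}
    (hx : 0 ≤ x) :
    IntegrableOn (fun ξ => w ξ * Real.sinh ξ ^ 2 * Gam (x * ξ / Real.sinh ξ)) (Ioi 0) ∧
    ∫ p in Strip, FF (fun p => w p.1) x p =
      ∫ ξ in Ioi 0, w ξ * Real.sinh ξ ^ 2 * Gam (x * ξ / Real.sinh ξ) := by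
  have hi : IntegrableOn (FF (fun p => w p.1) x) Strip :=
    FF_int (by fun_prop) (fun p hp => hb p.1 hp.1) hx
  have e : ∀ ξ : ℝ, 0 < ξ → ∫ η in Ioo 0 Real.pi, FF (fun p => w p.1) x (ξ, η) =
      w ξ * Real.sinh ξ ^ 2 * Gam (x * ξ / Real.sinh ξ) := by
    intro ξ hξ
    unfold FF Gam
    rw [← integral_const_mul]
    apply setIntegral_congr_fun measurableSet_Ioo
    intro η hη
    simp only
    rw [mul_pow, div_div]
    ring
  unfold IntegrableOn at hi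
  rw [strip_measure] at hi
  constructor
  · have := hi.integral_prod_left
    refine IntegrableOn.congr_fun this ?_ measurableSet_Ioi
    intro ξ hξ
    exact e ξ hξ
  · rw [strip_measure, integral_prod _ hi]
    apply setIntegral_congr_fun measurableSet_Ioi
    intro ξ hξ
    exact e ξ hξ

/-- `TT 1 < 0` -/
lemma TT_one : TT 1 < 0 := by
  obtain ⟨y₀, hy1, hyn, hyp⟩ := exists_y0
  have hy0 : 0 < y₀ := by linarith
  -- the comparison Jacobian
  set w : ℝ → ℝ := fun ξ => Jf (Real.sinh ξ ^ 2) ((ξ / Real.sinh ξ / y₀) ^ 2) with hw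
  have hκ : ∀ ξ : ℝ, 0 < ξ → 0 < ξ / Real.sinh ξ ∧ ξ / Real.sinh ξ < 1 := by
    intro ξ hξ
    have hs : ξ < Real.sinh ξ := Real.self_lt_sinh_iff.2 hξ
    have hs0 : 0 < Real.sinh ξ := by linarith
    exact ⟨by positivity, (div_lt_one hs0).2 hs⟩
  have hσ : ∀ ξ : ℝ, 0 < ξ → 0 < ξ / Real.sinh ξ / y₀ ∧ ξ / Real.sinh ξ / y₀ < 1 := by
    intro ξ hξ
    obtain ⟨h1, h2⟩ := hκ ξ hξ
    refine ⟨by positivity, ?_⟩
    rw [div_lt_one hy0]; linarith
  have hwm : Measurable w := by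
    rw [hw]; unfold Jf; fun_prop
  have hwb : ∀ ξ, 0 < ξ → |w ξ| ≤ Jx ξ := by
    intro ξ hξ
    obtain ⟨h1, h2⟩ := hσ ξ hξ
    have hs : 0 < Real.sinh ξ := Real.sinh_pos_iff.2 hξ
    have h3 : (ξ / Real.sinh ξ / y₀) ^ 2 ≤ 1 := by nlinarith
    have h4 : 0 ≤ w ξ := by
      rw [hw]; unfold Jf
      have : 0 < Real.sinh ξ ^ 2 + 1 - (ξ / Real.sinh ξ / y₀) ^ 2 := by
        have : 0 < Real.sinh ξ ^ 2 := by positivity
        linarith
      positivity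
    rw [abs_of_nonneg h4, ← Jf_one hξ]
    exact Jf_le (by positivity) (by positivity) h3 le_rfl
  obtain ⟨-, hrad⟩ := FF_rad hwm hwb (x := 1) zero_le_one
  have hz : ∫ p in Strip, FF (fun p => w p.1) 1 p = 0 := by
    rw [hrad, setIntegral_congr_fun (g := fun _ => (0 : ℝ)) measurableSet_Ioi]
    · simp
    · intro ξ hξ
      obtain ⟨h1, h2⟩ := hκ ξ hξ
      simp only
      rw [one_mul, Gam_zero h1.le h2.le, mul_zero]
  have hi1 := Tin_int 1 zero_le_one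
  have hi2 : IntegrableOn (FF (fun p => w p.1) 1) Strip :=
    FF_int (by fun_prop) (fun p hp => hwb p.1 hp.1) zero_le_one
  set f : ℝ × ℝ → ℝ := fun p => FF (fun p => w p.1) 1 p - Tin 1 p with hf
  have hfi : IntegrableOn f Strip := hi2.sub hi1
  have hfe : ∫ p in Strip, f p = - TT 1 := by
    rw [hf, integral_sub hi2 hi1, hz, zero_sub]; rfl
  have hsign : ∀ p ∈ Strip, 0 ≤ f p ∧ (y₀ * Real.sin p.2 > p.1 / Real.sinh p.1 → 0 < f p) := by
    intro p hp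
    have hs : 0 < Real.sinh p.1 := Real.sinh_pos_iff.2 hp.1
    have hη : 0 < Real.sin p.2 := sin_pos' ⟨hp.2.1, hp.2.2⟩
    have hη1 : Real.sin p.2 ≤ 1 := Real.sin_le_one _
    obtain ⟨h1, h2⟩ := hκ p.1 hp.1
    obtain ⟨h3, h4⟩ := hσ p.1 hp.1
    have e : f p = (w p.1 - Jac p.1 p.2) * (Real.sinh p.1 * Real.sin p.2) ^ 2 *
        gg (p.1 / Real.sinh p.1 / Real.sin p.2) := by
      rw [hf]
      simp only [FF, Tin, one_mul]
      rw [div_div]; ring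
    have hsq : 0 < (Real.sinh p.1 * Real.sin p.2) ^ 2 := by positivity
    rw [e]
    rcases lt_trichotomy (Real.sin p.2) (p.1 / Real.sinh p.1 / y₀) with h | h | h
    · have h5 : 0 < gg (p.1 / Real.sinh p.1 / Real.sin p.2) := by
        apply hyp
        rw [lt_div_iff₀ hη]
        rw [lt_div_iff₀ hy0] at h
        linarith
      have h6 : Jac p.1 p.2 < w p.1 := by
        rw [Jac_eq]
        exact Jf_lt (by positivity) (by positivity) (by nlinarith) (by nlinarith)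
      have h7 : 0 < (w p.1 - Jac p.1 p.2) * (Real.sinh p.1 * Real.sin p.2) ^ 2 :=
        mul_pos (by linarith) hsq
      have h8 := mul_pos h7 h5
      exact ⟨h8.le, fun _ => h8⟩
    · have h6 : Jac p.1 p.2 = w p.1 := by rw [Jac_eq, h]
      rw [h6, sub_self, zero_mul, zero_mul]
      refine ⟨le_rfl, fun h9 => ?_⟩
      rw [h] at h9
      have : y₀ * (p.1 / Real.sinh p.1 / y₀) = p.1 / Real.sinh p.1 := by field_simp
      rw [this] at h9
      exact absurd h9 (lt_irrefl _)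
    · have h5 : gg (p.1 / Real.sinh p.1 / Real.sin p.2) < 0 := by
        apply hyn _ (by positivity)
        rw [div_lt_iff₀ hη]
        rw [div_lt_iff₀ hy0] at h
        linarith
      have h6 : w p.1 < Jac p.1 p.2 := by
        rw [Jac_eq]
        exact Jf_lt (by positivity) (by positivity) (by nlinarith) (by nlinarith)
      have h7 : (w p.1 - Jac p.1 p.2) * (Real.sinh p.1 * Real.sin p.2) ^ 2 < 0 :=
        mul_neg_of_neg_of_pos (by linarith) hsq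
      have h8 := mul_pos_of_neg_of_neg h7 h5
      exact ⟨h8.le, fun _ => h8⟩
  have hpos : 0 < ∫ p in Strip, f p := by
    rw [setIntegral_pos_iff_support_of_nonneg_ae ?_ hfi]
    · set O : Set (ℝ × ℝ) := {p | 0 < p.1 ∧ 0 < p.2 ∧ p.2 < Real.pi ∧
        p.1 < y₀ * Real.sin p.2 * Real.sinh p.1} with hO
      have hOo : IsOpen O := by
        refine (isOpen_lt continuous_const continuous_fst).inter
          ((isOpen_lt continuous_const continuous_snd).inter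
            ((isOpen_lt continuous_snd continuous_const).inter (isOpen_lt continuous_fst ?_)))
        fun_prop
      have hOn : O.Nonempty := by
        refine ⟨(1, Real.pi / 2), zero_lt_one, by positivity, by linarith [Real.pi_pos], ?_⟩
        simp only [Real.sin_pi_div_two, mul_one]
        have : (1 : ℝ) < Real.sinh 1 := Real.self_lt_sinh_iff.2 one_pos
        nlinarith
      refine lt_of_lt_of_le (hOo.measure_pos (volume : Measure (ℝ × ℝ)) hOn) (measure_mono ?_)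
      rintro p ⟨h1, h2, h3, h4⟩
      have hp : p ∈ Strip := ⟨h1, h2, h3⟩
      refine ⟨?_, hp⟩
      have hs : 0 < Real.sinh p.1 := Real.sinh_pos_iff.2 h1
      exact ((hsign p hp).2 (by rw [gt_iff_lt, div_lt_iff₀ hs]; exact h4)).ne'
    · filter_upwards [ae_restrict_mem strip_meas] with p hp
      exact (hsign p hp).1
  linarith

end A11b

end Pool.Agent.H87.LE
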