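import Pool.Agent.H14.LE.SignD

/-! # A11b (helper14): TT x > 0 for large x -/

open MeasureTheory Complex Set Filter Topology
open scoped ContDiff Laplacian

namespace Pool.Agent.H87.LE

namespace A11b

lemma gap_bound {ξ : ℝ} (hξ : 0 < ξ) : (Jx ξ - Jn ξ) * ξ ^ 2 ≤ 48 ^ 3 * Real.exp (-(ξ / 8)) := by
  have hs : 0 < Real.sinh ξ := Real.sinh_pos_iff.2 hξ
  have hc : 0 < Real.cosh ξ := Real.cosh_pos ξ
  have hcs : Real.cosh ξ - Real.sinh ξ = Real.exp (-ξ) := Real.cosh_sub_sinh ξ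
  -- Bernoulli
  have hB : Real.cosh ξ ^ (7 / 2 : ℝ) - Real.sinh ξ ^ (7 / 2 : ℝ) ≤
      7 / 2 * Real.cosh ξ ^ (5 / 2 : ℝ) * Real.exp (-ξ) := by
    have h1 := one_add_mul_self_le_rpow_one_add
      (show -1 ≤ Real.sinh ξ / Real.cosh ξ - 1 by have : 0 ≤ Real.sinh ξ / Real.cosh ξ := by positivity
                                                  linarith)
      (show (1 : ℝ) ≤ 7 / 2 by norm_num)
    rw [add_sub_cancel, Real.div_rpow hs.le hc.le] at h1
    have h2 : 0 < Real.cosh ξ ^ (7 / 2 : ℝ) := by positivity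
    have h3 := mul_le_mul_of_nonneg_left h1 h2.le
    have h4 : Real.cosh ξ ^ (7 / 2 : ℝ) * (Real.sinh ξ ^ (7 / 2 : ℝ) / Real.cosh ξ ^ (7 / 2 : ℝ)) =
        Real.sinh ξ ^ (7 / 2 : ℝ) := by field_simp
    have h5 : Real.cosh ξ ^ (7 / 2 : ℝ) = Real.cosh ξ ^ (5 / 2 : ℝ) * Real.cosh ξ := by
      rw [show (7 / 2 : ℝ) = 5 / 2 + 1 by norm_num, Real.rpow_add_one hc.ne']
    have h6 : Real.cosh ξ ^ (7 / 2 : ℝ) * (1 + 7 / 2 * (Real.sinh ξ / Real.cosh ξ - 1)) =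
        Real.cosh ξ ^ (7 / 2 : ℝ) - 7 / 2 * Real.cosh ξ ^ (5 / 2 : ℝ) * Real.exp (-ξ) := by
      rw [← hcs, h5]; field_simp; ring
    rw [h4, h6] at h3
    linarith
  have e1 : Jx ξ - Jn ξ = (Real.cosh ξ ^ (7 / 2 : ℝ) - Real.sinh ξ ^ (7 / 2 : ℝ)) /
      (16 * (Real.sinh ξ ^ (3 / 2 : ℝ) * Real.cosh ξ ^ (3 / 2 : ℝ))) := by
    have h5 : ∀ y : ℝ, 0 < y → y ^ (7 / 2 : ℝ) = y ^ 2 * y ^ (3 / 2 : ℝ) := by
      intro y hy
      rw [← Real.rpow_natCast y 2, ← Real.rpow_add hy]; norm_num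
    unfold Jx Jn
    rw [h5 _ hs, h5 _ hc]
    field_simp
  have h5 : Real.cosh ξ ^ (5 / 2 : ℝ) = Real.cosh ξ * Real.cosh ξ ^ (3 / 2 : ℝ) := by
    rw [show (5 / 2 : ℝ) = 1 + 3 / 2 by norm_num, Real.rpow_add hc, Real.rpow_one]
  have hce : Real.cosh ξ * Real.exp (-ξ) ≤ 1 := by
    rw [Real.cosh_eq]
    have h1 : Real.exp ξ * Real.exp (-ξ) = 1 := by rw [← Real.exp_add]; simp
    have h2 : Real.exp (-ξ) ≤ 1 := by rw [Real.exp_le_one_iff]; linarith
    have h3 : Real.exp (-ξ) * Real.exp (-ξ) ≤ 1 := by nlinarith [Real.exp_pos (-ξ)]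
    nlinarith
  have h6 : Jx ξ - Jn ξ ≤ Real.sinh ξ ^ (-(3 / 2) : ℝ) := by
    rw [e1, div_le_iff₀ (by positivity)]
    refine hB.trans ?_
    rw [h5]
    have h7 : Real.sinh ξ ^ (-(3 / 2) : ℝ) * Real.sinh ξ ^ (3 / 2 : ℝ) = 1 := by
      rw [← Real.rpow_add hs]; norm_num
    have h8 : Real.sinh ξ ^ (-(3 / 2) : ℝ) * (16 * (Real.sinh ξ ^ (3 / 2 : ℝ) *
        Real.cosh ξ ^ (3 / 2 : ℝ))) = 16 * Real.cosh ξ ^ (3 / 2 : ℝ) := by
      linear_combination 16 * Real.cosh ξ ^ (3 / 2 : ℝ) * h7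
    rw [h8]
    have h9 : 0 < Real.cosh ξ ^ (3 / 2 : ℝ) := by positivity
    nlinarith
  set q : ℝ := ξ * Real.exp ξ / (1 + 2 * ξ) with hq
  have hq0 : 0 < q := by positivity
  have hqs : q ≤ Real.sinh ξ := sinh_lower hξ
  have h1 : Real.sinh ξ ^ (-(3 / 2) : ℝ) ≤ q ^ (-(3 / 2) : ℝ) :=
    Real.rpow_le_rpow_of_nonpos hq0 hqs (by norm_num)
  have h2 : q ^ (-(3 / 2) : ℝ) = ξ ^ (-(3 / 2) : ℝ) * Real.exp (-(3 / 2) * ξ) *
      (1 + 2 * ξ) ^ (3 / 2 : ℝ) := by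
    rw [hq, Real.div_rpow (by positivity) (by linarith), Real.mul_rpow hξ.le (Real.exp_pos _).le,
      ← Real.exp_mul, Real.rpow_neg (by linarith : 0 ≤ 1 + 2 * ξ), div_inv_eq_mul]
    congr 3
    ring
  have h3 : ξ ^ 2 * ξ ^ (-(3 / 2) : ℝ) = ξ ^ (1 / 2 : ℝ) := by
    rw [← Real.rpow_natCast ξ 2, ← Real.rpow_add hξ]; norm_num
  have h4 : ξ ^ (1 / 2 : ℝ) ≤ (1 + 2 * ξ) ^ (1 / 2 : ℝ) :=
    Real.rpow_le_rpow hξ.le (by linarith) (by norm_num)
  have h5' : (1 + 2 * ξ) ^ (1 / 2 : ℝ) * (1 + 2 * ξ) ^ (3 / 2 : ℝ) ≤ (1 + 2 * ξ) ^ (3 : ℝ) := by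
    rw [← Real.rpow_add (by linarith)]
    exact Real.rpow_le_rpow_of_exponent_le (by linarith) (by norm_num)
  have h7 := poly_exp hξ
  calc (Jx ξ - Jn ξ) * ξ ^ 2 ≤ q ^ (-(3 / 2) : ℝ) * ξ ^ 2 := by
        have := h6.trans h1
        gcongr
    _ = ξ ^ (1 / 2 : ℝ) * (1 + 2 * ξ) ^ (3 / 2 : ℝ) * Real.exp (-(3 / 2) * ξ) := by
        rw [h2, ← h3]; ring
    _ ≤ (1 + 2 * ξ) ^ (1 / 2 : ℝ) * (1 + 2 * ξ) ^ (3 / 2 : ℝ) * Real.exp (-(3 / 2) * ξ) := by
        gcongr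
    _ ≤ (48 ^ 3 * Real.exp (ξ / 8)) * Real.exp (-(3 / 2) * ξ) :=
        mul_le_mul_of_nonneg_right (h5'.trans h7) (Real.exp_pos _).le
    _ = 48 ^ 3 * Real.exp (ξ / 8 + -(3 / 2) * ξ) := by rw [mul_assoc, ← Real.exp_add]
    _ ≤ 48 ^ 3 * Real.exp (-(ξ / 8)) := by
        have : Real.exp (ξ / 8 + -(3 / 2) * ξ) ≤ Real.exp (-(ξ / 8)) :=
          Real.exp_le_exp.2 (by linarith)
        linarith

lemma Gam_int {κ : ℝ} (hκ : 0 ≤ κ) :
    IntegrableOn (fun η => Real.sin η ^ 2 * gg (κ / Real.sin η)) (Ioo 0 Real.pi) := by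
  have hmaj : IntegrableOn (fun η => (100 * κ ^ (11 / 4 : ℝ)) * Real.sin η ^ (-(3 / 4) : ℝ))
      (Ioo 0 Real.pi) := sin_rpow_int.const_mul _
  refine Integrable.mono' hmaj ?_ ?_
  · have h1 : Measurable fun η : ℝ => gg (κ / Real.sin η) :=
      gg_cont.measurable.comp (by fun_prop)
    exact (by fun_prop : Measurable fun η => Real.sin η ^ 2 * gg (κ / Real.sin η)).aestronglyMeasurable
  · filter_upwards [ae_restrict_mem measurableSet_Ioo] with η hη
    have hs := sin_pos' hη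
    have hg := gg_bound (show 0 ≤ κ / Real.sin η by positivity)
    have e1 : (κ / Real.sin η) ^ (11 / 4 : ℝ) = κ ^ (11 / 4 : ℝ) * Real.sin η ^ (-(11 / 4) : ℝ) := by
      rw [Real.div_rpow hκ hs.le, Real.rpow_neg hs.le]; rfl
    have e2 : Real.sin η ^ 2 * Real.sin η ^ (-(11 / 4) : ℝ) = Real.sin η ^ (-(3 / 4) : ℝ) := by
      rw [← Real.rpow_natCast (Real.sin η) 2, ← Real.rpow_add hs]; norm_num
    rw [Real.norm_eq_abs, abs_mul, abs_of_nonneg (sq_nonneg _)]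
    calc Real.sin η ^ 2 * |gg (κ / Real.sin η)|
        ≤ Real.sin η ^ 2 * (100 * (κ / Real.sin η) ^ (11 / 4 : ℝ)) := by gcongr
      _ = _ := by rw [e1, ← e2]; ring

lemma Gam_growth {M : ℝ} {κ : ℝ} (h2 : 2 ≤ κ) (hκ : Real.exp (2 * M + 3) ≤ κ) :
    M * Real.pi * κ ^ 2 ≤ Gam κ := by
  have h0 : 0 ≤ κ := by linarith
  have h1 : ∫ η in Ioo 0 Real.pi, M * κ ^ 2 ≤ Gam κ := by
    unfold Gam
    apply setIntegral_mono_on (integrableOn_const (by simp)) (Gam_int h0) measurableSet_Ioo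
    intro η hη
    have hs := sin_pos' hη
    have hs1 := Real.sin_le_one η
    have hy : κ ≤ κ / Real.sin η := by
      rw [le_div_iff₀ hs]; nlinarith
    have hg := gg_growth (h2.trans hy)
    have hl : 2 * M + 3 ≤ Real.log (κ / Real.sin η) := by
      rw [Real.le_log_iff_exp_le (by linarith)]; linarith
    have h3 : (κ / Real.sin η) ^ 2 * M ≤ gg (κ / Real.sin η) := by
      have : 0 ≤ (κ / Real.sin η) ^ 2 := by positivity
      nlinarith
    have h4 : Real.sin η ^ 2 * ((κ / Real.sin η) ^ 2 * M) = M * κ ^ 2 := by field_simp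
    rw [← h4]
    gcongr
  rw [setIntegral_const] at h1
  simp only [Real.volume_real_Ioo_of_le Real.pi_pos.le, sub_zero, smul_eq_mul] at h1
  linarith

lemma TT_pos' : ∃ x₂ : ℝ, 1 < x₂ ∧ 0 < TT x₂ := by
  have hexp : IntegrableOn (fun ξ : ℝ => 3 / 2 * (48 ^ 3 * Real.exp (-(ξ / 8)))) (Ioi 0) := by
    have h0 := integrableOn_exp_mul_Ioi (a := -(1 / 8 : ℝ)) (by norm_num) 0
    have h1 : IntegrableOn (fun ξ : ℝ => 3 / 2 * (48 ^ 3 * Real.exp (-(1 / 8) * ξ))) (Ioi 0) :=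
      (Integrable.const_mul h0 (48 ^ 3)).const_mul _
    refine h1.congr_fun ?_ measurableSet_Ioi
    intro ξ _
    simp only
    congr 3
    ring
  have hmaj : IntegrableOn (fun p : ℝ × ℝ => 3 / 2 * (48 ^ 3 * Real.exp (-(p.1 / 8)))) Strip := by
    unfold IntegrableOn
    rw [strip_measure]
    have h1 : IntegrableOn (fun _ : ℝ => (1 : ℝ)) (Ioo 0 Real.pi) := by simp
    have := Integrable.mul_prod hexp h1
    simpa using this
  set D : ℝ := ∫ p in Strip, 3 / 2 * (48 ^ 3 * Real.exp (-(p.1 / 8))) with hD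
  have hD0 : 0 ≤ D := by
    apply setIntegral_nonneg strip_meas
    intro p _; positivity
  -- first part
  have hJn : Measurable fun ξ => Jn ξ := by unfold Jn; fun_prop
  have hJnb : ∀ ξ, 0 < ξ → |Jn ξ| ≤ Jx ξ := by
    intro ξ hξ
    have hp : ((ξ, Real.pi / 2) : ℝ × ℝ) ∈ Strip :=
      ⟨hξ, by positivity, by linarith [Real.pi_pos]⟩
    have := Jac_bounds hp
    rw [abs_of_nonneg Jn_nonneg]
    exact this.1.trans this.2
  have first : ∀ x : ℝ, 0 ≤ x → - (x ^ 2 * D) ≤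
      ∫ p in Strip, FF (fun p => Jac p.1 p.2 - Jn p.1) x p := by
    intro x hx
    rw [hD, ← integral_const_mul, ← integral_neg]
    apply setIntegral_mono_on (hmaj.const_mul _).neg _ strip_meas
    · intro p hp
      obtain ⟨hb1, hb2⟩ := Jac_bounds hp
      have hξ : 0 < p.1 := hp.1
      have hs : 0 < Real.sinh p.1 := Real.sinh_pos_iff.2 hξ
      have hη : 0 < Real.sin p.2 := sin_pos' ⟨hp.2.1, hp.2.2⟩
      have hg := gg_lower (show 0 ≤ x * p.1 / (Real.sinh p.1 * Real.sin p.2) by positivity)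
      have e : (Real.sinh p.1 * Real.sin p.2) ^ 2 *
          (-(3 / 2) * (x * p.1 / (Real.sinh p.1 * Real.sin p.2)) ^ 2) = -(3 / 2) * (x * p.1) ^ 2 := by
        field_simp
      have h1 : -(3 / 2) * (x * p.1) ^ 2 ≤ (Real.sinh p.1 * Real.sin p.2) ^ 2 *
          gg (x * p.1 / (Real.sinh p.1 * Real.sin p.2)) := by
        rw [← e]; gcongr
      have h2 : (Jac p.1 p.2 - Jn p.1) * (-(3 / 2) * (x * p.1) ^ 2) ≤
          FF (fun p => Jac p.1 p.2 - Jn p.1) x p := by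
        unfold FF
        rw [mul_assoc]
        exact mul_le_mul_of_nonneg_left h1 (by linarith)
      refine le_trans ?_ h2
      have h3 := gap_bound hξ
      have h4 : (Jac p.1 p.2 - Jn p.1) * p.1 ^ 2 ≤ 48 ^ 3 * Real.exp (-(p.1 / 8)) := by
        refine le_trans ?_ h3
        gcongr
      have h5 : 0 ≤ x ^ 2 := by positivity
      have h6 := mul_le_mul_of_nonneg_left h4 h5
      simp only [Pi.neg_apply]
      nlinarith
    · apply FF_int _ _ hx
      · exact Jac_meas.sub (hJn.comp measurable_fst)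
      · intro p hp
        obtain ⟨hb1, hb2⟩ := Jac_bounds hp
        rw [abs_of_nonneg (by linarith)]
        have := Jn_nonneg (ξ := p.1)
        linarith
  -- second part
  set c₀ : ℝ := Real.sinh 1 ^ 2 / (16 * Real.cosh 2 ^ (3 / 2 : ℝ)) with hc₀
  have hc0 : 0 < c₀ := by
    have : 0 < Real.sinh 1 := Real.sinh_pos_iff.2 one_pos
    have := Real.cosh_pos 2
    positivity
  set M : ℝ := (D + 1) / (Real.pi * c₀) with hM
  have hM0 : 0 ≤ M := by positivity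
  have hMe : M * Real.pi * c₀ = D + 1 := by
    rw [hM]; have := Real.pi_pos; field_simp
  have hs2 : 0 < Real.sinh 2 := Real.sinh_pos_iff.2 two_pos
  set Y : ℝ := Real.exp (2 * M + 3) with hY
  have hY2 : 2 ≤ Y := by
    have := Real.add_one_le_exp (2 * M + 3)
    rw [hY]; linarith
  set x : ℝ := max 2 (Y * Real.sinh 2) with hx
  have hx2 : 2 ≤ x := le_max_left _ _
  have hxY : Y * Real.sinh 2 ≤ x := le_max_right _ _
  refine ⟨x, by linarith, ?_⟩
  obtain ⟨hri, hrad⟩ := FF_rad hJn hJnb (x := x) (by linarith)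
  have second : M * Real.pi * x ^ 2 * c₀ ≤ ∫ p in Strip, FF (fun p => Jn p.1) x p := by
    rw [hrad]
    have hsub : Ioo (1 : ℝ) 2 ⊆ Ioi 0 := fun ξ hξ => by
      have := hξ.1; show (0 : ℝ) < ξ; linarith
    have hnn : ∀ ξ : ℝ, 0 < ξ → 0 ≤ Jn ξ * Real.sinh ξ ^ 2 * Gam (x * ξ / Real.sinh ξ) := by
      intro ξ hξ
      have hs : 0 < Real.sinh ξ := Real.sinh_pos_iff.2 hξ
      have h1 := Gam_nonneg (show 0 ≤ x * ξ / Real.sinh ξ by positivity)
      have h2 := Jn_nonneg (ξ := ξ)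
      positivity
    have h1 : ∫ ξ in Ioo (1 : ℝ) 2, Jn ξ * Real.sinh ξ ^ 2 * Gam (x * ξ / Real.sinh ξ) ≤
        ∫ ξ in Ioi 0, Jn ξ * Real.sinh ξ ^ 2 * Gam (x * ξ / Real.sinh ξ) := by
      apply setIntegral_mono_set hri
      · filter_upwards [ae_restrict_mem measurableSet_Ioi] with ξ hξ using hnn ξ hξ
      · exact hsub.eventuallyLE
    refine le_trans ?_ h1
    have h2 : ∫ ξ in Ioo (1 : ℝ) 2, M * Real.pi * x ^ 2 * c₀ ≤
        ∫ ξ in Ioo (1 : ℝ) 2, Jn ξ * Real.sinh ξ ^ 2 * Gam (x * ξ / Real.sinh ξ) := by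
      apply setIntegral_mono_on (integrableOn_const (by simp)) (hri.mono_set hsub) measurableSet_Ioo
      intro ξ hξ
      have hξ0 : 0 < ξ := hsub hξ
      have hs : 0 < Real.sinh ξ := Real.sinh_pos_iff.2 hξ0
      have hs' : Real.sinh ξ ≤ Real.sinh 2 := Real.sinh_le_sinh.2 hξ.2.le
      have hκ : Y ≤ x * ξ / Real.sinh ξ := by
        rw [le_div_iff₀ hs]
        have h3 : Y * Real.sinh ξ ≤ Y * Real.sinh 2 := by gcongr
        have h4 : x * 1 ≤ x * ξ := by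
          apply mul_le_mul_of_nonneg_left hξ.1.le (by linarith)
        linarith
      have h3 := Gam_growth (hY2.trans hκ) hκ
      have h4 : c₀ ≤ Jn ξ := by
        rw [hc₀]; unfold Jn
        have h5 : Real.sinh 1 ≤ Real.sinh ξ := Real.sinh_le_sinh.2 hξ.1.le
        have h6 : Real.cosh ξ ≤ Real.cosh 2 := by
          rw [Real.cosh_le_cosh, abs_of_pos hξ0, abs_of_pos two_pos]; exact hξ.2.le
        have h7 : 0 < Real.sinh 1 := Real.sinh_pos_iff.2 one_pos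
        have h8 : 0 < Real.cosh ξ := Real.cosh_pos ξ
        gcongr
      have h5 : 1 ≤ ξ ^ 2 := by nlinarith [hξ.1]
      calc M * Real.pi * x ^ 2 * c₀ ≤ M * Real.pi * x ^ 2 * (Jn ξ * ξ ^ 2) := by
            have : c₀ ≤ Jn ξ * ξ ^ 2 := by nlinarith
            have h9 : 0 ≤ M * Real.pi * x ^ 2 := by positivity
            gcongr
        _ = Jn ξ * Real.sinh ξ ^ 2 * (M * Real.pi * (x * ξ / Real.sinh ξ) ^ 2) := by
            field_simp
        _ ≤ _ := by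
            have := Jn_nonneg (ξ := ξ)
            gcongr
    rw [setIntegral_const] at h2
    simp only [Real.volume_real_Ioo_of_le one_le_two, smul_eq_mul] at h2
    linarith
  have hsum : TT x = (∫ p in Strip, FF (fun p => Jac p.1 p.2 - Jn p.1) x p) +
      ∫ p in Strip, FF (fun p => Jn p.1) x p := by
    rw [← integral_add]
    · unfold TT
      apply setIntegral_congr_fun strip_meas
      intro p _
      simp only [Tin, FF]
      ring
    · apply FF_int _ _ (by linarith)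
      · exact Jac_meas.sub (hJn.comp measurable_fst)
      · intro p hp
        obtain ⟨hb1, hb2⟩ := Jac_bounds hp
        rw [abs_of_nonneg (by linarith)]
        have := Jn_nonneg (ξ := p.1)
        linarith
    · exact FF_int (hJn.comp measurable_fst) (fun p hp => hJnb p.1 hp.1) (by linarith)
  have h1 := first x (by linarith)
  rw [hsum]
  have h2 : M * Real.pi * x ^ 2 * c₀ = x ^ 2 * D + x ^ 2 := by
    linear_combination x ^ 2 * hMe
  have h3 : 0 < x ^ 2 := by positivity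
  linarith

end A11b

end Pool.Agent.H87.LE
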